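import Pool.Agent.Helper29.HB.GoalsA

/-!
# HB, goals B: the limit `S` of the endomorphisms `S_j = ε_j h σᴴ Q_j⁻¹ σ`, the projector `P`, flatness, `β = σ P h σᴴ`
-/

open Complex Metric Set Filter Topology MeasureTheory
open scoped ContDiff ComplexConjugate ComplexOrder Manifold Matrix

namespace Pool.Agent.Helper29.HB

open Pool.Agent.Helper95.Lin Pool.Agent.Helper16.Abund Pool.Agent.Helper92.Orb
  Pool.Agent.Helper10.SP Pool.Agent.Helper95.RK Pool.Agent.Helper57.HS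
  Pool.Agent.Helper15.HS Pool.Agent.Helper15.GS
open Pool.Agent.Helper57.RBC (Fam SupB SeqR TkeS)
open Pool.Agent.Helper10.RBC (dn)
open Pool.Agent.Helper95.HS (vol DensLe)

universe u v

/-! ## 1. Weighted limits of matrix fields (general) -/

/-- `Z_j → P` in the mean with weights `w_j`. -/
structure WL {n m : ℕ} (T : Set (Cn n)) (w : ℕ → Cn n → ℝ)
    (Z : ℕ → Cn n → Matrix (Fin m) (Fin m) ℂ) (P : Cn n → Matrix (Fin m) (Fin m) ℂ) : Prop where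
  op : IsOpen T
  wc : ∀ j, ContinuousOn (w j) T
  w0 : ∀ j, ∀ x ∈ T, 0 ≤ w j x
  Zc : ∀ j a c, ContinuousOn (fun x => Z j x a c) T
  Pc : ∀ a c, ContinuousOn (fun x => P x a c) T
  Zb : ∀ C ⊆ T, IsCompact C → ∃ K : ℝ, ∀ j, ∀ x ∈ C, ∀ a c, ‖Z j x a c‖ ≤ K
  conv : ∀ C ⊆ T, IsCompact C → ∀ a c,
    Tendsto (fun j => ∫ x in C, w j x * ‖Z j x a c - P x a c‖) atTop (𝓝 0)
  low : ∀ C ⊆ T, IsCompact C → 0 < volume C → ∃ c > 0, ∀ j, c ≤ ∫ x in C, w j x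

/-- WCC. Closed conditions pass to the limit. PROOF. Copy `closed_cond`, `unif_lip` of `Helper57/RBC/Closed.lean` (and `Ctx.key`, `Ctx.lim`, `Ctx.bd` of
`Helper19/HS/LPR.lean`; `keyZ`, `bddM`, `Df` are already general) with `Matrix (Fin m) (Fin m) ℂ`. -/
def S_WCC : Prop := ∀ {n m : ℕ} (T : Set (Cn n)) (w : ℕ → Cn n → ℝ)
  (Z : ℕ → Cn n → Matrix (Fin m) (Fin m) ℂ) (P : Cn n → Matrix (Fin m) (Fin m) ℂ),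
  WL T w Z P → ∀ Φ : Cn n → Matrix (Fin m) (Fin m) ℂ → ℝ,
  ContinuousOn (fun q : Cn n × Matrix (Fin m) (Fin m) ℂ => Φ q.1 q.2) (T ×ˢ univ) →
  ∀ E : ℕ → Cn n → ℝ, (∀ j, ContinuousOn (E j) T) → (∀ j, ∀ x ∈ T, Φ x (Z j x) ≤ E j x) →
  (∀ C ⊆ T, IsCompact C → Tendsto (fun j => ∫ x in C, w j x * E j x) atTop (𝓝 0)) →
  ∀ x ∈ T, Φ x (P x) ≤ 0

/-- WIN. Invariance passes to the limit. USES: ARRB.
PROOF. As in `rsc` (`Helper29/RBC/Rsc.lean`, second half): for `R γ x₀ y₀` take `U, τ` from `ARRB`, a closed ball `N ⊆ U` about `x₀`. On `N` the continuous function `|Φ (τ x) (P (τ x)) - Φ x (P x)| ≤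
|Φ (τ x) (P (τ x)) - Φ (τ x) (Z_j (τ x))| + |Φ x (Z_j x) - Φ x (P x)|`. For `η > 0` there is `M` with `|Φ y X - Φ y Y| ≤ η + M ∑ ‖X a c - Y a c‖` for `y ∈ N ∪ τ N` and the bounded matrices in question (`unif_lip`).
Integrate against `w_j x = w_j (τ x)`, change of variables: `≤ η' ∫_N w_j + o(1)`; `keyZ`/`zero_of_tendsto` (subtract `2 η`). (2) The same for the functions `hermi (Φ (τ x) X) (Dτ u) (Dτ v) - hermi (Φ x X') u v`, for the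
local arrow `τ` itself. -/
def S_WIN : Prop := ∀ {n m : ℕ} (T : Set (Cn n)) {G : Type u} [Group G]
  (R : G → Cn n → Cn n → Prop), Et T R → ∀ (w : ℕ → Cn n → ℝ)
  (Z : ℕ → Cn n → Matrix (Fin m) (Fin m) ℂ) (P : Cn n → Matrix (Fin m) (Fin m) ℂ),
  WL T w Z P → (∀ j γ x y, R γ x y → w j y = w j x) →
  (∀ Φ : Cn n → Matrix (Fin m) (Fin m) ℂ → ℂ,
    ContinuousOn (fun q : Cn n × Matrix (Fin m) (Fin m) ℂ => Φ q.1 q.2) (T ×ˢ univ) →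
    (∀ j γ x y, R γ x y → Φ y (Z j y) = Φ x (Z j x)) →
    ∀ γ x y, R γ x y → Φ y (P y) = Φ x (P x)) ∧
  ∀ Φ : Cn n → Matrix (Fin m) (Fin m) ℂ → Matrix (Fin n) (Fin n) ℂ,
    (∀ i l, ContinuousOn (fun q : Cn n × Matrix (Fin m) (Fin m) ℂ => Φ q.1 q.2 i l)
      (T ×ˢ univ)) →
    (∀ j, InvH R fun x => Φ x (Z j x)) → InvH R fun x => Φ x (P x)

/-- WAV. Averages. USES: DETI, NULL0. PROOF. As `RAVL` (`Helper40/RBC/RAVL.lean`). -/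
def S_WAV : Prop := ∀ {n m : ℕ} (T : Set (Cn n)) {G : Type u} [Group G]
  (R : G → Cn n → Cn n → Prop) (H : Cn n → Matrix (Fin n) (Fin n) ℂ), KEt T R H →
  ∀ κ, IsPUE T R κ → ∀ (Q : ℕ → Cn n → Matrix (Fin n) (Fin n) ℂ)
  (Z : ℕ → Cn n → Matrix (Fin m) (Fin m) ℂ) (P : Cn n → Matrix (Fin m) (Fin m) ℂ),
  (∀ j, KEt T R (Q j)) → WL T (fun j => dn T κ H (Q j)) Z P →
  ∀ F : Cn n → Matrix (Fin m) (Fin m) ℂ → ℝ,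
  ContinuousOn (fun q : Cn n × Matrix (Fin m) (Fin m) ℂ => F q.1 q.2) (T ×ˢ univ) →
  ∀ a b : ℝ, (∀ x ∈ T, a ≤ F x (P x) ∧ F x (P x) ≤ b) → ∀ η : ℝ, 0 < η → ∀ᶠ j in atTop,
    a - η ≤ avE T κ (Q j) (fun x => F x (Z j x)) ∧
    avE T κ (Q j) (fun x => F x (Z j x)) ≤ b + η

/-! ## 2. The limit -/

/-- SDB. Bounds for `S = SE ε Q σ h` and `∂̄S`. USES: SCL, SPL, MCAL.
PROOF. `K = Q⁻¹ = zᴴ z`, `h = b bᴴ`: `S h = ε (σ h)ᴴ K (σ h) ≥ 0`, `tr S = ε tr (g K)`, `b⁻¹ S b = ε (z σ b)ᴴ (z σ b)` is positive semidefinite with trace `ε tS`, so its entries are `≤ ε tS` in absolute value, `b`, `b⁻¹` are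
bounded on `C` (`‖b‖² = tr h`, `‖b⁻¹‖² = tr h⁻¹`). (det) `det (t - S) = t^(m-n) det (t - ε g K)`; see below. `cdbM l S = ε h N_lᴴ K σ` (`SCL`, `σ` holomorphic), `N_l = nab Q σ h l`: `b⁻¹ (cdbM l S) b = (√ε z N_l b)ᴴ (√ε z σ b)`, Frobenius norm
squared `≤ ε tr (N_l h N_lᴴ K) · ε tS`. `∑ K l k tr (N_k h N_lᴴ K) ≥ (1/tr (Q H⁻¹)) ∑ H⁻¹ l k tr (N_k h N_lᴴ K) ≥ (c₀/tr (Q H⁻¹)) ∑_l tr (N_l h N_lᴴ K)` (`Q ≤ tr (Q H⁻¹) H`, `H⁻¹ ≥ c₀` on `C`; `SPL` last item). (5) By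
`Matrix.det_one_add_mul_comm`, `det (1 - r S) = det (1 - r ε g K)`, and `g K` is conjugate to itself under arrows (`IFN`, `InvH R (gS σ h)`): so `det (t - S)` is invariant for `t ≠ 0`, and by continuity for `t = 0`.
(6) `σ (S^p h) σᴴ = ε^p (g K)^p g`, and `g x = J g(y) Jᴴ`, `K x = J⁻ᴴ K(y) J⁻¹`. -/
def S_SDB : Prop := ∀ {n m : ℕ} (T : Set (Cn n)) {G : Type u} [Group G]
  (R : G → Cn n → Cn n → Prop) (H : Cn n → Matrix (Fin n) (Fin n) ℂ)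
  (σ : Cn n → Matrix (Fin n) (Fin m) ℂ) (h : Cn n → Matrix (Fin m) (Fin m) ℂ), KEt T R H →
  SD T σ h → InvH R (gS σ h) →
  (∀ (ε : ℝ) (Q : Cn n → Matrix (Fin n) (Fin n) ℂ), 0 < ε → KEt T R Q →
    (∀ a c, ContDiffOn ℝ ∞ (fun x => SE ε Q σ h x a c) T) ∧
    (∀ x ∈ T, SE ε Q σ h x * h x = h x * (SE ε Q σ h x)ᴴ ∧ (SE ε Q σ h x * h x).PosSemidef ∧
      Matrix.trace (SE ε Q σ h x) = ((ε * tS Q σ h x : ℝ) : ℂ)) ∧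
    (∀ t : ℝ, ∀ γ x y, R γ x y →
      ((t : ℂ) • (1 : Matrix (Fin m) (Fin m) ℂ) - SE ε Q σ h y).det =
        ((t : ℂ) • (1 : Matrix (Fin m) (Fin m) ℂ) - SE ε Q σ h x).det) ∧
    ∀ p : ℕ, InvH R fun x => σ x * (SE ε Q σ h x ^ p * h x) * (σ x)ᴴ) ∧
  ∀ C ⊆ T, IsCompact C → ∃ K : ℝ, 0 < K ∧ ∀ (ε : ℝ) (Q : Cn n → Matrix (Fin n) (Fin n) ℂ),
  0 < ε → KEt T R Q → ∀ x ∈ C, (∀ a c, ‖SE ε Q σ h x a c‖ ≤ K * (ε * tS Q σ h x)) ∧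
  ∑ l, ∑ a, ∑ c, ‖cdb l (fun y => SE ε Q σ h y a c) x‖ ^ 2 ≤
    K * (Matrix.trace (Q x * (H x)⁻¹)).re * (ε * AS Q σ h x) * (ε * tS Q σ h x)

/-- The minimising sequences and the limit `Si` of `S_j`. -/
structure LimE {n m : ℕ} (T : Set (Cn n)) {G : Type u} [Group G] (R : G → Cn n → Cn n → Prop)
    (κ : Cn n → ℝ) (H : Cn n → Matrix (Fin n) (Fin n) ℂ) (σ : Cn n → Matrix (Fin n) (Fin m) ℂ)
    (h Si : Cn n → Matrix (Fin m) (Fin m) ℂ) (s : ℝ) (S N : ℕ → ℝ) (φ : ℕ → Cn n → ℝ)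
    (H' : ℕ → Cn n → Matrix (Fin n) (Fin n) ℂ) (ε : ℕ → ℝ)
    (Q : ℕ → Cn n → Matrix (Fin n) (Fin n) ℂ) : Prop where
  seq : SeqR T R H (gS σ h) s S N φ H' ε Q
  wl : WL T (fun j => dn T κ H (Q j)) (fun j => SE (ε j) (Q j) σ h) Si
  holo : ∀ a b, DifferentiableOn ℂ (fun x => Si x a b) T
  winv : ∀ j γ x y, R γ x y → dn T κ H (Q j) y = dn T κ H (Q j) x
  wb : ∃ K : ℝ, 0 < K ∧ ∀ j, ∀ x ∈ T, 0 < dn T κ H (Q j) x ∧ dn T κ H (Q j) x ≤ K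
  gB : ∀ C ⊆ T, IsCompact C → ∃ B : ℝ, ∀ j, ∫ x in C, (Matrix.trace (Q j x * (H x)⁻¹)).re ≤ B
  v : ∀ C ⊆ T, IsCompact C → Tendsto (fun j => ∫ x in C, dn T κ H (Q j) x *
    (S j - ε j * tS (Q j) σ h x)) atTop (𝓝 0)
  err : ∀ C ⊆ T, IsCompact C → Tendsto (fun j => ∫ x in C, dn T κ H (Q j) x *
    (ε j * (KS (Q j) σ h x + AS (Q j) σ h x))) atTop (𝓝 0)

/-- HLC. The limit exists. USES: HSEQ, HVC, HVD, SDB, RWT, RAC (`Helper57/RBC/Goals2.lean`), LOWQ, LIMG, DETI, KETP.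
PROOF. Sequences from `HSEQ`, `E_j[v_j] → 0` (`HVC`), `E_j[ε_j (KS + AS)] ≤ E_j[v_j]` (`HVD`). `RWT` (`TkeS` from `SeqR`: `ket'` from `fam`, `le` from `epsH`): `QPF` for `u_j = log dn_j`, `0 < dn_j ≤ K`, traces; `exp u_j = dn_j`, `low` by
`LOWQ`; `winv` by `KETP`/`DETI`. `RAC`: `v`, `err` on compact sets. `SDB` and Cauchy–Schwarz: `(∫_C dn ‖cdb l S_ac‖)² ≤ (K (s + 1)) (K' ∫_C tr (Q H⁻¹)) (∫_C dn ε AS) → 0`. `LIMG` for `Z_j := S_j`, `ι = Fin m × Fin m`: subsequence; all fields for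
the subsequence (`SeqR`: `1/(φ j + 1) ≤ 1/(j + 1)`). Compare `RLC` (`Helper57/RBC`). -/
def S_HLC : Prop := ∀ {n m : ℕ}, 0 < n → ∀ (T : Set (Cn n)) {G : Type u} [Group G]
  (R : G → Cn n → Cn n → Prop) (H : Cn n → Matrix (Fin n) (Fin n) ℂ)
  (σ : Cn n → Matrix (Fin n) (Fin m) ℂ) (h : Cn n → Matrix (Fin m) (Fin m) ℂ)
  (ψ : Cn n → ℝ), HBD T R H σ h ψ → ∀ κ, IsPUE T R κ →
  ∃ (s : ℝ) (S N : ℕ → ℝ) (φ : ℕ → Cn n → ℝ) (H' : ℕ → Cn n → Matrix (Fin n) (Fin n) ℂ)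
    (ε : ℕ → ℝ) (Q : ℕ → Cn n → Matrix (Fin n) (Fin n) ℂ)
    (Si : Cn n → Matrix (Fin m) (Fin m) ℂ), LimE T R κ H σ h Si s S N φ H' ε Q

/-- HSP. Properties of the limit. USES: WCC, WIN, SDB, ECF, SPL, SCL.
PROOF. `w_j := dn_j`, `Z_j := S_j`. (1) `WCC` for `Φ x X = ‖(X h - h Xᴴ) a c‖`, `E = 0`; for fixed `e`: `Φ x X = - (star e ⬝ᵥ (X h) *ᵥ e).re`, `E = 0`; `Φ x X = ‖tr X - s‖`, `E_j = |S_j - s| + (S_j - ε_j tS)` (`LimE.v`, `∫_C dn_j` is bounded, `S_j → s`).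
(2) `WIN` (1) for `Φ x X = det (t - X)`; (3) `WIN` (2) for `Φ x X = σ (X^p h) σᴴ` (`SDB`). (4) For `u ∈ ℂⁿ`: `Φ x X := |(tr (RU h u h⁻¹ X)).re|`. At `X = S_j`: `κ_kl := - tr (RE_kl h⁻¹ S_j) = - ε tr (σ RE_kl σᴴ K)`; `C k l := - σ RE_kl σᴴ` satisfies the hypothesis of
`SPL` (`SD.neg`), so `∑ u_k conj(u_l) κ_kl ≥ 0` for all `u`: `0 ≤ ∑ u_k conj(u_l) κ_kl ≤ |u|² ∑_k κ_kk`, `∑_k κ_kk ≤ c₁ ∑ H⁻¹ l k κ_kl ≤ c₁ tr (Q H⁻¹) ∑ K l k κ_kl = c₁ tr (Q H⁻¹) ε KS` on a compact set. On `C` the left side is bounded by `b`, so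
`Φ ≤ (b Φ)^(1/2) ≤ const (tr (Q H⁻¹) ε KS)^(1/2)`, and by Cauchy–Schwarz `∫_C dn_j (tr (Q H⁻¹) ε KS)^(1/2) ≤ (K ∫_C tr (Q H⁻¹))^(1/2) (∫_C dn_j ε KS)^(1/2) → 0`. (`WCC` with `E_j x := Φ x (S_j x)`, its weighted integrals over compact sets tend to `0`.)
(5) For `q` with `q(0) = 0`, `e ∈ ℂᵐ` (row), `u`: `Φ x X := (e q(X) RU h u q(X)ᴴ eᴴ).re ≤ 0` at `X = S_j`: `q(S_j) = S_j q₁(S_j) = h σᴴ (…) σ`, so `e q(S_j) = w σ`, and `SD.neg`. -/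
def S_HSP : Prop := ∀ {n m : ℕ} (T : Set (Cn n)) {G : Type u} [Group G]
  (R : G → Cn n → Cn n → Prop) (H : Cn n → Matrix (Fin n) (Fin n) ℂ)
  (σ : Cn n → Matrix (Fin n) (Fin m) ℂ) (h : Cn n → Matrix (Fin m) (Fin m) ℂ)
  (ψ : Cn n → ℝ), HBD T R H σ h ψ → ∀ κ, IsPUE T R κ →
  ∀ (Si : Cn n → Matrix (Fin m) (Fin m) ℂ) (s : ℝ) (S N : ℕ → ℝ) (φ : ℕ → Cn n → ℝ)
    (H' : ℕ → Cn n → Matrix (Fin n) (Fin n) ℂ) (ε : ℕ → ℝ)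
    (Q : ℕ → Cn n → Matrix (Fin n) (Fin n) ℂ), LimE T R κ H σ h Si s S N φ H' ε Q →
  (∀ x ∈ T, Si x * h x = h x * (Si x)ᴴ ∧ (Si x * h x).PosSemidef ∧
    Matrix.trace (Si x) = (s : ℂ)) ∧
  (∀ t : ℝ, ∀ γ x y, R γ x y → ((t : ℂ) • (1 : Matrix (Fin m) (Fin m) ℂ) - Si y).det =
    ((t : ℂ) • (1 : Matrix (Fin m) (Fin m) ℂ) - Si x).det) ∧
  (∀ p : ℕ, InvH R fun x => σ x * (Si x ^ p * h x) * (σ x)ᴴ) ∧
  (∀ x ∈ T, ∀ u : Cn n, (Matrix.trace (RU h u x * (h x)⁻¹ * Si x)).re = 0) ∧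
  ∀ q : Polynomial ℝ, q.eval 0 = 0 → ∀ x ∈ T, ∀ u : Cn n,
    (-(Polynomial.aeval (Si x) q * RU h u x * (Polynomial.aeval (Si x) q)ᴴ)).PosSemidef

/-- HCH. The projector. PROOF. As `chp` (`Helper45/RBC/CHP.lean`) with `m × m` matrices; the invariance of the characteristic polynomial is now a hypothesis. The eigenvalues of `A x` (conjugate to a positive semidefinite matrix) are constant:
`a_1, …, a_k > 0` and `0`. `p(0) = 0`, `p(a_i) = 1`, `P := p(A)`. `c := min a_i` (or `1`). `det (1 + τ A) = ∏ (1 + τ a_i)`. -/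
def S_HCH : Prop := ∀ {n m : ℕ} (T : Set (Cn n)) {G : Type u} [Group G]
  (R : G → Cn n → Cn n → Prop), Et T R → ∀ h A : Cn n → Matrix (Fin m) (Fin m) ℂ,
  (∀ x ∈ T, (h x).PosDef) → (∀ i j, DifferentiableOn ℂ (fun x => A x i j) T) →
  (∀ x ∈ T, (A x * h x).PosSemidef) →
  (∀ t : ℝ, ∀ γ x y, R γ x y → ((t : ℂ) • (1 : Matrix (Fin m) (Fin m) ℂ) - A y).det =
    ((t : ℂ) • (1 : Matrix (Fin m) (Fin m) ℂ) - A x).det) →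
  ∃ (k : ℕ) (P : Cn n → Matrix (Fin m) (Fin m) ℂ) (p : Polynomial ℝ) (a : Fin k → ℝ),
    k ≤ m ∧ p.eval 0 = 0 ∧ (∀ x, P x = Polynomial.aeval (A x) p) ∧
    (∀ i j, DifferentiableOn ℂ (fun x => P x i j) T) ∧ (∀ x ∈ T, P x * P x = P x) ∧
    (∀ x ∈ T, P x * h x = h x * (P x)ᴴ) ∧ (∀ x ∈ T, Matrix.trace (P x) = k) ∧
    (∀ x ∈ T, P x * A x = A x ∧ A x * P x = A x) ∧
    (∃ c : ℝ, 0 < c ∧ ∀ x ∈ T, (A x * h x - (c : ℂ) • (P x * h x)).PosSemidef) ∧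
    (∀ i, 0 < a i) ∧ ∀ x ∈ T, ∀ τ : ℝ,
      (1 + (τ : ℂ) • A x).det = ((∏ i, (1 + τ * a i) : ℝ) : ℂ)

/-- HFL. Flatness (pointwise algebra). PROOF. `B := - P R_u Pᴴ ≥ 0` where `R_u := ∑ u_k conj(u_l) C k l`. `A = P A P`, `h⁻¹ P = Pᴴ h⁻¹`, so `h⁻¹ A = Pᴴ h⁻¹ A P` and `0 = (tr (R_u h⁻¹ A)).re = - (tr (B h⁻¹ A)).re`; `h⁻¹ A - c h⁻¹ P = h⁻¹ (A h - c P h) h⁻¹ ≥ 0`, so
`c tr (B h⁻¹ P) ≤ 0`, `tr (B h⁻¹ P) = tr (P B h⁻¹) = tr (B h⁻¹)`: `B = 0`. `P R_u = P P R_u = P R_u Pᴴ = 0` for all `u`; polarization: `P C k l = 0`. -/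
def S_HFL : Prop := ∀ {n m : ℕ} (h A P : Matrix (Fin m) (Fin m) ℂ)
  (C : Fin n → Fin n → Matrix (Fin m) (Fin m) ℂ) (c : ℝ), h.PosDef → P * P = P →
  P * h = h * Pᴴ → P * A = A → A * P = A → 0 < c → (A * h - (c : ℂ) • (P * h)).PosSemidef →
  (∀ k l, P * C k l = C k l * Pᴴ) →
  (∀ u : Cn n, (-(P * (∑ k, ∑ l, (u k * conj (u l)) • C k l) * Pᴴ)).PosSemidef) →
  (∀ u : Cn n, (Matrix.trace ((∑ k, ∑ l, (u k * conj (u l)) • C k l) * h⁻¹ * A)).re = 0) →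
  ∀ k l, P * C k l = 0

/-- The form `β = σ P h σᴴ`. -/
noncomputable def bS {n m : ℕ} (σ : Cn n → Matrix (Fin n) (Fin m) ℂ)
    (h P : Cn n → Matrix (Fin m) (Fin m) ℂ) (x : Cn n) : Matrix (Fin n) (Fin n) ℂ :=
  σ x * (P x * h x) * (σ x)ᴴ

/-- HCL. The form `β` is closed. USES: RCAL, ECF, `S_ST2A` and `S_POSK` of `Helper15/RK/GoalsF.lean`, PUE, DETI, RHOI.
PROOF. As `GCLO` (`Helper93/GS/GCLO.lean`). `D_i := cdR i σ + σ GamE h i` (`n × m`). `cdbR l (P h σᴴ) = P h (D_l)ᴴ`, `cdb l β = σ P h D_lᴴ`, adjoint: `cd i β = D_i P h σᴴ`. `cd i (cdb j β) = D_i P h D_jᴴ + σ P h (cdbR i (GamE h j))ᴴ σᴴ = D_i P h D_jᴴ`, because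
`P h (cdbR i (GamE h j))ᴴ = (cdbR i (GamE h j) P h)ᴴ = (P cdbR i (GamE h j) h)ᴴ = - (P RE h j i)ᴴ = 0` (`ECF`). With `T i r a := (D_i)_ra - (D_r)_ia`, `K := H⁻¹`: `E2 H β = (det H/2) ∑ K j i K l r (P h)_ab T i r a conj(T j l b) ≥ 0`, an invariant density with integral `0`
(`ST2A`), so it vanishes (`POSK`): `∑ a, T i r a (P h)_ab = 0`, `cd i β_rl = cd r β_il`. Smooth, Hermitian: clear. -/
def S_HCL : Prop := ∀ {n m : ℕ} (T : Set (Cn n)) {G : Type u} [Group G]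
  (R : G → Cn n → Cn n → Prop) (H : Cn n → Matrix (Fin n) (Fin n) ℂ)
  (σ : Cn n → Matrix (Fin n) (Fin m) ℂ) (h : Cn n → Matrix (Fin m) (Fin m) ℂ), KEt T R H →
  SD T σ h → ∀ P : Cn n → Matrix (Fin m) (Fin m) ℂ,
  (∀ a b, DifferentiableOn ℂ (fun x => P x a b) T) → (∀ x ∈ T, P x * P x = P x) →
  (∀ x ∈ T, P x * h x = h x * (P x)ᴴ) → InvH R (bS σ h P) →
  (∀ x ∈ T, ∀ k l, P x * RE h k l x = 0) → CHF (bS σ h P) T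

/-- The output of the core. -/
structure PE {n m : ℕ} (k : ℕ) (T : Set (Cn n)) {G : Type u} [Group G]
    (R : G → Cn n → Cn n → Prop) (σ : Cn n → Matrix (Fin n) (Fin m) ℂ)
    (h P : Cn n → Matrix (Fin m) (Fin m) ℂ) : Prop where
  holo : ∀ a b, DifferentiableOn ℂ (fun x => P x a b) T
  proj : ∀ x ∈ T, P x * P x = P x
  tr : ∀ x ∈ T, Matrix.trace (P x) = k
  herm : ∀ x ∈ T, P x * h x = h x * (P x)ᴴ
  inv : InvH R (bS σ h P)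
  chf : CHF (bS σ h P) T
  flat : ∀ x ∈ T, ∀ k l, P x * RE h k l x = 0

/-- SDP. The data `(σ P, h)` and `(σ (1 - P), h)`. USES: RCAL, ECF.
PROOF. `gS (σ P) h = σ P h Pᴴ σᴴ = bS σ h P`, `gS (σ (1 - P)) h = σ (1 - P) h (1 - Pᴴ) σᴴ = gS σ h - bS σ h P`. `P RU = 0 = RU Pᴴ` (adjoint, `ECF`), so `σ P RU Pᴴ σᴴ = 0` and `σ (1 - P) RU (1 - P)ᴴ σᴴ = σ RU σᴴ`. -/
def S_SDP : Prop := ∀ {n m : ℕ} (k : ℕ) (T : Set (Cn n)) {G : Type u} [Group G]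
  (R : G → Cn n → Cn n → Prop) (σ : Cn n → Matrix (Fin n) (Fin m) ℂ)
  (h P : Cn n → Matrix (Fin m) (Fin m) ℂ), IsOpen T → SD T σ h → InvH R (gS σ h) →
  PE k T R σ h P →
  (SD T (fun x => σ x * P x) h ∧ (∀ x ∈ T, gS (fun x => σ x * P x) h x = bS σ h P x) ∧
    InvH R (gS (fun x => σ x * P x) h) ∧ ∀ Q, ∀ x ∈ T, KS Q (fun x => σ x * P x) h x = 0) ∧
  SD T (fun x => σ x * (1 - P x)) h ∧
  (∀ x ∈ T, gS (fun x => σ x * (1 - P x)) h x = gS σ h x - bS σ h P x) ∧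
  InvH R (gS (fun x => σ x * (1 - P x)) h)

/-- HPE (assembly). USES: HLC, HSP, HCH, HFL, HCL, ECF. `β = ∑ p_i σ (Si^i h) σᴴ` is invariant (`HSP` (3)). -/
def S_HPE : Prop := ∀ {n m : ℕ}, 0 < n → ∀ (T : Set (Cn n)) {G : Type u} [Group G]
  (R : G → Cn n → Cn n → Prop) (H : Cn n → Matrix (Fin n) (Fin n) ℂ)
  (σ : Cn n → Matrix (Fin n) (Fin m) ℂ) (h : Cn n → Matrix (Fin m) (Fin m) ℂ)
  (ψ : Cn n → ℝ), HBD T R H σ h ψ → ∀ κ, IsPUE T R κ →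
  ∃ (s : ℝ) (S N : ℕ → ℝ) (φ : ℕ → Cn n → ℝ) (H' : ℕ → Cn n → Matrix (Fin n) (Fin n) ℂ)
    (ε : ℕ → ℝ) (Q : ℕ → Cn n → Matrix (Fin n) (Fin n) ℂ)
    (Si : Cn n → Matrix (Fin m) (Fin m) ℂ) (k : ℕ) (P : Cn n → Matrix (Fin m) (Fin m) ℂ)
    (a : Fin k → ℝ), LimE T R κ H σ h Si s S N φ H' ε Q ∧ PE k T R σ h P ∧
    (∀ x ∈ T, P x * Si x = Si x ∧ Si x * P x = Si x) ∧ (∀ i, 0 < a i) ∧ ∀ x ∈ T, ∀ τ : ℝ,
      (1 + (τ : ℂ) • Si x).det = ((∏ i, (1 + τ * a i) : ℝ) : ℂ)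

end Pool.Agent.Helper29.HB
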