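import Pool.Agent.Helper57.RBC.Goals2

/-!
# HB: bundles with nonpositive curvature along `σ : T_M → E`

Setting. `H` is an invariant Kähler metric on the étale relation `R` on `T ⊆ ℂⁿ`. `σ` is a holomorphic
`n × m` matrix on `T` (a homomorphism `T_M → E`, rows `w ↦ w σ`), `h` a Hermitian metric of the trivial bundle
of rank `m` on `T`, such that the Chern curvature of `h` is nonpositive on the image of `σ`:
`R^h(u, ū; w σ, w σ) ≤ 0` for all `u`, `w`. Only the form `g = σ h σᴴ` (semidefinite) is invariant. There is an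
invariant volume form `v = e^ψ det H` with `i∂∂̄ log v + g > 0`. THEOREM HB: the canonical bundle is semiample.
Conventions of `Helper57/HS/Defs.lean`: matrices act on rows, `cd k = 2 ∂_k`, `cdb k = 2 ∂̄_k`.
-/

open Complex Metric Set Filter Topology MeasureTheory
open scoped ContDiff ComplexConjugate ComplexOrder Manifold Matrix

namespace Pool.Agent.Helper29.HB

open Pool.Agent.Helper95.Lin Pool.Agent.Helper16.Abund Pool.Agent.Helper92.Orb
  Pool.Agent.Helper10.SP Pool.Agent.Helper95.RK Pool.Agent.Helper57.HS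
  Pool.Agent.Helper15.HS Pool.Agent.Helper15.GS
open Pool.Agent.Helper57.RBC (Fam SupB SeqR TkeS)
open Pool.Agent.Helper10.RBC (dn)
open Pool.Agent.Helper95.HS (vol DensLe)

universe u v

/-- Entrywise `cd k` of a rectangular matrix field. -/
noncomputable def cdR {n a b : ℕ} (k : Fin n) (X : Cn n → Matrix (Fin a) (Fin b) ℂ) (x : Cn n) :
    Matrix (Fin a) (Fin b) ℂ := Matrix.of fun i j => cd k (fun y => X y i j) x

/-- Entrywise `cdb k` of a rectangular matrix field. -/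
noncomputable def cdbR {n a b : ℕ} (k : Fin n) (X : Cn n → Matrix (Fin a) (Fin b) ℂ) (x : Cn n) :
    Matrix (Fin a) (Fin b) ℂ := Matrix.of fun i j => cdb k (fun y => X y i j) x

/-- The form `σ h σᴴ`. -/
noncomputable def gS {n m : ℕ} (σ : Cn n → Matrix (Fin n) (Fin m) ℂ)
    (h : Cn n → Matrix (Fin m) (Fin m) ℂ) (x : Cn n) : Matrix (Fin n) (Fin n) ℂ :=
  σ x * h x * (σ x)ᴴ

/-- The connection matrices `(cd k h) h⁻¹` of `h`. -/
noncomputable def GamE {n m : ℕ} (h : Cn n → Matrix (Fin m) (Fin m) ℂ) (k : Fin n) (x : Cn n) :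
    Matrix (Fin m) (Fin m) ℂ := cdR k h x * (h x)⁻¹

/-- The curvature `- (cdb l Γ_k) h` of `h`. -/
noncomputable def RE {n m : ℕ} (h : Cn n → Matrix (Fin m) (Fin m) ℂ) (k l : Fin n) (x : Cn n) :
    Matrix (Fin m) (Fin m) ℂ := - (cdbR l (GamE h k) x * h x)

/-- The curvature of `h` in the direction `u`. -/
noncomputable def RU {n m : ℕ} (h : Cn n → Matrix (Fin m) (Fin m) ℂ) (u x : Cn n) :
    Matrix (Fin m) (Fin m) ℂ := ∑ k, ∑ l, (u k * conj (u l)) • RE h k l x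

/-- `σ` is holomorphic, `h` a Hermitian metric whose curvature is nonpositive on the image of `σ`. -/
structure SD {n m : ℕ} (W : Set (Cn n)) (σ : Cn n → Matrix (Fin n) (Fin m) ℂ)
    (h : Cn n → Matrix (Fin m) (Fin m) ℂ) : Prop where
  holo : ∀ i a, DifferentiableOn ℂ (fun x => σ x i a) W
  smooth : ∀ a b, ContDiffOn ℝ ∞ (fun x => h x a b) W
  posDef : ∀ x ∈ W, (h x).PosDef
  neg : ∀ x ∈ W, ∀ u : Cn n, (-(σ x * RU h u x * (σ x)ᴴ)).PosSemidef

/-- The data of the theorem: `rho H + LM ψ` is the curvature of the volume form `e^ψ det H`. -/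
structure HBD {n m : ℕ} (T : Set (Cn n)) {G : Type u} [Group G] (R : G → Cn n → Cn n → Prop)
    (H : Cn n → Matrix (Fin n) (Fin n) ℂ) (σ : Cn n → Matrix (Fin n) (Fin m) ℂ)
    (h : Cn n → Matrix (Fin m) (Fin m) ℂ) (ψ : Cn n → ℝ) : Prop where
  ket : KEt T R H
  sd : SD T σ h
  inv : InvH R (gS σ h)
  psi : InvF T R ψ
  pos : ∀ x ∈ T, (rho H x + LM ψ x + gS σ h x).PosDef

/-- The covariant derivative `∇_k σ` of `σ` with respect to `Q` and `h`. -/
noncomputable def nab {n m : ℕ} (Q : Cn n → Matrix (Fin n) (Fin n) ℂ)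
    (σ : Cn n → Matrix (Fin n) (Fin m) ℂ) (h : Cn n → Matrix (Fin m) (Fin m) ℂ) (k : Fin n)
    (x : Cn n) : Matrix (Fin n) (Fin m) ℂ := cdR k σ x + σ x * GamE h k x - Gam Q k x * σ x

/-- `|∇ σ|²`. -/
noncomputable def AS {n m : ℕ} (Q : Cn n → Matrix (Fin n) (Fin n) ℂ)
    (σ : Cn n → Matrix (Fin n) (Fin m) ℂ) (h : Cn n → Matrix (Fin m) (Fin m) ℂ) (x : Cn n) : ℝ :=
  (∑ k, ∑ l, (Q x)⁻¹ l k *
    Matrix.trace (nab Q σ h k x * h x * (nab Q σ h l x)ᴴ * (Q x)⁻¹)).re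

/-- The curvature term (nonnegative under `SD.neg`). -/
noncomputable def KS {n m : ℕ} (Q : Cn n → Matrix (Fin n) (Fin n) ℂ)
    (σ : Cn n → Matrix (Fin n) (Fin m) ℂ) (h : Cn n → Matrix (Fin m) (Fin m) ℂ) (x : Cn n) : ℝ :=
  -(∑ k, ∑ l, (Q x)⁻¹ l k * Matrix.trace (σ x * RE h k l x * (σ x)ᴴ * (Q x)⁻¹)).re

/-- The trace of `g Q⁻¹`. -/
noncomputable def tS {n m : ℕ} (Q : Cn n → Matrix (Fin n) (Fin n) ℂ)
    (σ : Cn n → Matrix (Fin n) (Fin m) ℂ) (h : Cn n → Matrix (Fin m) (Fin m) ℂ) (x : Cn n) : ℝ :=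
  (Matrix.trace (gS σ h x * (Q x)⁻¹)).re

/-- The endomorphism `S = ε h σᴴ Q⁻¹ σ` of the bundle. -/
noncomputable def SE {n m : ℕ} (ε : ℝ) (Q : Cn n → Matrix (Fin n) (Fin n) ℂ)
    (σ : Cn n → Matrix (Fin n) (Fin m) ℂ) (h : Cn n → Matrix (Fin m) (Fin m) ℂ) (x : Cn n) :
    Matrix (Fin m) (Fin m) ℂ := (ε : ℂ) • (h x * (σ x)ᴴ * (Q x)⁻¹ * σ x)

end Pool.Agent.Helper29.HB
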