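import Pool.Agent.Helper29.HB.Defs

/-!
# HB, goals A: calculus, the Chern–Lu identity for `σ`, a priori bounds, existence, minimising sequences

All proved goals of `Helper10/SP`, `Helper95/Lin`, `Helper15/HS/GoalsC.lean`, `Helper95/HS/GoalsA.lean`,
`GoalsB.lean`, `Helper57/HS/DefsB.lean` (`S_AYG`), `Helper57/RBC`, `Helper10/RBC` may be used as hypotheses.
`K := (Q x)⁻¹`, `A ≤ B` means `(B - A).PosSemidef`. The proofs of HEX, HMON, HSEQ, HVD, HVC are those of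
`Helper57/RBC/Exist.lean`, `Seq.lean`, `Vfun.lean` with `h` replaced by the semidefinite form `g = σ h σᴴ`.
-/

open Complex Metric Set Filter Topology MeasureTheory
open scoped ContDiff ComplexConjugate ComplexOrder Manifold Matrix

namespace Pool.Agent.Helper29.HB

open Pool.Agent.Helper95.Lin Pool.Agent.Helper16.Abund Pool.Agent.Helper92.Orb
  Pool.Agent.Helper10.SP Pool.Agent.Helper95.RK Pool.Agent.Helper57.HS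
  Pool.Agent.Helper15.HS Pool.Agent.Helper15.GS
open Pool.Agent.Helper57.RBC (Fam SupB SeqR TkeS)
open Pool.Agent.Helper10.RBC (dn)
open Pool.Agent.Helper95.HS (vol DensLe)

universe u v

/-! ## 1. Calculus -/

/-- RCAL. Calculus of rectangular matrix fields. USES: WIRT (`S_WIRT` of `Helper10/SP`).
PROOF. Entrywise: product rule for `cd`, `cdb`, `conj (cd k f) = cdb k (conj f)`, `cd k (cdb l f) = cdb l (cd k f)`, `cdb k f = 0` for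
holomorphic `f`. (See `Helper80/HS/MCAL.lean` for square matrices.) -/
def S_RCAL : Prop := ∀ {n a b c : ℕ} (W : Set (Cn n)), IsOpen W →
  ∀ (X : Cn n → Matrix (Fin a) (Fin b) ℂ) (Y : Cn n → Matrix (Fin b) (Fin c) ℂ),
  (∀ i j, ContDiffOn ℝ ∞ (fun x => X x i j) W) → (∀ i j, ContDiffOn ℝ ∞ (fun x => Y x i j) W) →
  (∀ i j, ContDiffOn ℝ ∞ (fun x => (X x * Y x) i j) W) ∧
  (∀ i j, ContDiffOn ℝ ∞ (fun x => ((X x)ᴴ) i j) W) ∧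
  (∀ k i j, ContDiffOn ℝ ∞ (fun x => cdR k X x i j) W ∧
    ContDiffOn ℝ ∞ (fun x => cdbR k X x i j) W) ∧
  ∀ x ∈ W, ∀ k, cdR k (fun y => X y * Y y) x = cdR k X x * Y x + X x * cdR k Y x ∧
    cdbR k (fun y => X y * Y y) x = cdbR k X x * Y x + X x * cdbR k Y x ∧
    cdR k (fun y => (X y)ᴴ) x = (cdbR k X x)ᴴ ∧ cdbR k (fun y => (X y)ᴴ) x = (cdR k X x)ᴴ ∧
    (∀ l, cdR k (cdbR l X) x = cdbR l (cdR k X) x) ∧
    ((∀ i j, DifferentiableOn ℂ (fun y => X y i j) W) → cdbR k X x = 0)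

/-- ECF. The connection and the curvature of `h`. USES: RCAL, MCAL (inverse of a matrix field).
PROOF. `cdR k h = GamE h k * h` by definition, `cdbR l h = (cdR l h)ᴴ = h (GamE h l)ᴴ`. `cdbR l (GamE h k) h = cdbR l (GamE h k * h) - GamE h k cdbR l h =
cdbR l (cdR k h) - GamE h k h (GamE h l)ᴴ`; this gives (4) and (5). Let `P` be holomorphic, `P h = h Pᴴ`. `cdbR l (P h) = P h (GamE h l)ᴴ`, adjoint: `cdR l (P h) =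
GamE h l (P h)ᴴ = GamE h l P h` and `= cdR l P h + P GamE h l h`. Apply `cdbR k`: `cdbR k (GamE h l) P = P cdbR k (GamE h l)`, multiply by `h`: `P RE = RE Pᴴ`. -/
def S_ECF : Prop := ∀ {n m : ℕ} (W : Set (Cn n)), IsOpen W →
  ∀ h : Cn n → Matrix (Fin m) (Fin m) ℂ, (∀ x ∈ W, (h x).PosDef) →
  (∀ a b, ContDiffOn ℝ ∞ (fun x => h x a b) W) →
  (∀ k a b, ContDiffOn ℝ ∞ (fun x => GamE h k x a b) W) ∧
  (∀ k l a b, ContDiffOn ℝ ∞ (fun x => RE h k l x a b) W) ∧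
  (∀ x ∈ W, (∀ k, cdR k h x = GamE h k x * h x) ∧ (∀ l, cdbR l h x = h x * (GamE h l x)ᴴ) ∧
    (∀ k l, RE h k l x = - cdR k (cdbR l h) x + GamE h k x * h x * (GamE h l x)ᴴ) ∧
    (∀ k l, (RE h k l x)ᴴ = RE h l k x) ∧ ∀ u, (RU h u x).IsHermitian) ∧
  ∀ P : Cn n → Matrix (Fin m) (Fin m) ℂ, (∀ a b, DifferentiableOn ℂ (fun x => P x a b) W) →
  (∀ x ∈ W, P x * h x = h x * (P x)ᴴ) → ∀ x ∈ W,
  (∀ l, cdR l P x = GamE h l x * P x - P x * GamE h l x) ∧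
  (∀ l, cdR l (fun y => P y * h y) x = GamE h l x * (P x * h x)) ∧
  ∀ k l, P x * RE h k l x = RE h k l x * (P x)ᴴ

/-- SPL. Pointwise linear algebra (rectangular version of AAPS).
PROOF. `Q⁻¹ = Sᴴ S`, `Q⁻¹ l k = ∑ a, conj (S a l) S a k`, `Z_a := ∑ k, S a k • N k`. (1), (2): the sum is `∑ a, tr (Z_a h Z_aᴴ Sᴴ S) = ∑ a, tr ((S Z_a) h (S Z_a)ᴴ) ≥ 0`. (3) `h = b bᴴ`:
`tr (N_k h σᴴ Q⁻¹)` summed with `S a k` is `tr ((S Z_a b)(S σ b)ᴴ)`, Cauchy–Schwarz for the Frobenius inner product, sum over `a`. (4) With `u_a := (S a k)_k`: `∑ Q⁻¹ l k tr (C k l Q⁻¹) =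
∑ a, tr ((∑ k l, u_a k conj (u_a l) • C k l) Q⁻¹) ≥ 0`. (5) If `Q ≤ t H₁` then `Q⁻¹ ≥ t⁻¹ H₁⁻¹`: apply (4) (with the matrix `Q⁻¹ - t⁻¹ H₁⁻¹ ≥ 0` in the place of one of the factors, then of the other one;
`∑ X l k tr (C k l Y) ≥ 0` for all positive semidefinite `X`, `Y`). -/
def S_SPL : Prop := ∀ {n m : ℕ} (Q : Matrix (Fin n) (Fin n) ℂ) (h : Matrix (Fin m) (Fin m) ℂ)
  (σ : Matrix (Fin n) (Fin m) ℂ) (N : Fin n → Matrix (Fin n) (Fin m) ℂ), Q.PosDef →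
  h.PosSemidef →
  (∑ k, ∑ l, Q⁻¹ l k * Matrix.trace (N k * h * (N l)ᴴ * Q⁻¹)).im = 0 ∧
  0 ≤ (∑ k, ∑ l, Q⁻¹ l k * Matrix.trace (N k * h * (N l)ᴴ * Q⁻¹)).re ∧
  (∑ k, ∑ l, Q⁻¹ l k * (Matrix.trace (N k * h * σᴴ * Q⁻¹) *
    conj (Matrix.trace (N l * h * σᴴ * Q⁻¹)))).re ≤
    (Matrix.trace (σ * h * σᴴ * Q⁻¹)).re *
      (∑ k, ∑ l, Q⁻¹ l k * Matrix.trace (N k * h * (N l)ᴴ * Q⁻¹)).re ∧
  ∀ C : Fin n → Fin n → Matrix (Fin n) (Fin n) ℂ,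
  (∀ u : Cn n, (∑ k, ∑ l, (u k * conj (u l)) • C k l).PosSemidef) →
  ∀ X Y : Matrix (Fin n) (Fin n) ℂ, X.PosSemidef → Y.PosSemidef →
    0 ≤ (∑ k, ∑ l, X l k * Matrix.trace (C k l * Y)).re

/-- SCL. The Chern–Lu identity for `σ`. USES: RCAL, ECF, SPL, MCAL, CSY, LMF, WIRT.
PROOF. `Γ_k := GamE h k`, `G_k := Gam Q k`, `N_k := nab Q σ h k = cdR k σ + σ Γ_k - G_k σ`, `g = σ h σᴴ`. `cdbR l (h σᴴ K) = h Γ_lᴴ σᴴ K + h (cdR l σ)ᴴ K - h σᴴ G_lᴴ K = h N_lᴴ K` (`cdbM l K = - K (cdbM l Q) K =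
- K Q G_lᴴ K = - G_lᴴ K`, `cdbR l (σᴴ) = (cdR l σ)ᴴ`). `g K` has real trace (`K`, `g` Hermitian), `tS ≥ 0`. Since `tr (g K) = tr (σ · (h σᴴ K))` and, by the adjoint identity, `cd k (tr (g K)) = tr (N_k h σᴴ K)`:
`cdR k (h σᴴ K) = Γ_k h σᴴ K - h σᴴ K (cdM k Q) K = Γ_k h σᴴ K - h σᴴ K G_k` (`cdR k σᴴ = (cdbR k σ)ᴴ = 0`), `tr (cdR k σ h σᴴ K) + tr (σ Γ_k h σᴴ K) - tr (σ h σᴴ K G_k) = tr (N_k h σᴴ K)`. Apply `cdb l`: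
`tr (cdbR l N_k h σᴴ K) + tr (N_k h N_lᴴ K)`, `cdbR l N_k = σ cdbR l Γ_k - cdbM l G_k σ` (`cdbR l (cdR k σ) = cdR k (cdbR l σ) = 0`), so the first term is `- tr (σ RE_kl σᴴ K) - tr (cdbM l G_k g K)`. Multiply by
`K l k` and sum: `∑ K l k cdbM l G_k = rho Q K = (Q - η) K` (`CSY`, as in `CLG`). `KS ≥ 0`: `SPL` (last item) with `C k l = - σ RE_kl σᴴ` (`SD.neg`), `X = Y = K`; `AS ≥ 0`: `SPL`. -/
def S_SCL : Prop := ∀ {n m : ℕ} (W : Set (Cn n)), IsOpen W →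
  ∀ (Q η : Cn n → Matrix (Fin n) (Fin n) ℂ) (σ : Cn n → Matrix (Fin n) (Fin m) ℂ)
  (h : Cn n → Matrix (Fin m) (Fin m) ℂ), CHF Q W → (∀ x ∈ W, (Q x).PosDef) →
  (∀ x ∈ W, rho Q x = Q x - η x) → SD W σ h →
  (∀ i j, ContDiffOn ℝ ∞ (fun x => gS σ h x i j) W) ∧ ContDiffOn ℝ ∞ (tS Q σ h) W ∧
  (∀ k i a, ContDiffOn ℝ ∞ (fun x => nab Q σ h k x i a) W) ∧
  ContinuousOn (AS Q σ h) W ∧ ContinuousOn (KS Q σ h) W ∧ ∀ x ∈ W,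
  (gS σ h x).PosSemidef ∧
  ((tS Q σ h x : ℝ) : ℂ) = Matrix.trace (gS σ h x * (Q x)⁻¹) ∧ 0 ≤ tS Q σ h x ∧
  (∀ k, cd k (fun y => ((tS Q σ h y : ℝ) : ℂ)) x =
    Matrix.trace (nab Q σ h k x * h x * (σ x)ᴴ * (Q x)⁻¹)) ∧
  (∀ l, cdbR l (fun y => h y * (σ y)ᴴ * (Q y)⁻¹) x = h x * (nab Q σ h l x)ᴴ * (Q x)⁻¹) ∧
  (trL Q (tS Q σ h) x).re = - tS Q σ h x +
    (Matrix.trace (η x * (Q x)⁻¹ * gS σ h x * (Q x)⁻¹)).re + KS Q σ h x + AS Q σ h x ∧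
  0 ≤ KS Q σ h x ∧ 0 ≤ AS Q σ h x

/-- SLG. The logarithm. USES: SCL, SPL, CHN (Helper95 GoalsA), TRI (Helper95 GoalsB).
PROOF. `t := tS Q σ h` is `InvF` (`TRI` (1), `Y = gS σ h`). `CHN` for `F = log (· + c)`: `trL Q (log (t + c)) = (trL Q t)/(t + c) - (t + c)⁻² ∑ K l k cd k t conj (cd l t) ≥ (- t + AS)/(t + c) -
t AS/(t + c)² ≥ - t/(t + c) ≥ -1` (`SCL`, `η ≥ 0` so `tr (η K g K) ≥ 0`; `SPL` (3) with `N_k = nab Q σ h k`). -/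
def S_SLG : Prop := ∀ {n m : ℕ} (T : Set (Cn n)) {G : Type u} [Group G]
  (R : G → Cn n → Cn n → Prop) (Q η : Cn n → Matrix (Fin n) (Fin n) ℂ)
  (σ : Cn n → Matrix (Fin n) (Fin m) ℂ) (h : Cn n → Matrix (Fin m) (Fin m) ℂ), KEt T R Q →
  (∀ x ∈ T, (η x).PosSemidef) → (∀ x ∈ T, rho Q x = Q x - η x) → SD T σ h →
  InvH R (gS σ h) → InvF T R (tS Q σ h) ∧ ∀ c : ℝ, 0 < c →
  InvF T R (fun x => tS Q σ h x + c) ∧
  ∀ x ∈ T, -1 ≤ (trL Q (fun y => Real.log (tS Q σ h y + c)) x).re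

/-! ## 2. The a priori bound -/

/-- KUB. Upper bound of the curvature term of a fixed metric. USES: INVK, IFN (or TRI), CSY.
PROOF. `KKt H Q` and `tr (H Q⁻¹)` are invariant (`INVK`, `TRI`), so it is enough to prove the inequality for `x` in the compact set `C` of `Et.coc`. There `|crv H x i j k l| ≤ b` (`INVK`,
continuity) and for `K = Q⁻¹`: `|K i j| ≤ tr K` (positive definite), `tr K ≤ c tr (H K)` (`H ≥ c⁻¹` on `C`). So `|crvP H K K| ≤ n⁴ b c² (tr (H K))²`. -/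
def S_KUB : Prop := ∀ {n : ℕ} (T : Set (Cn n)) {G : Type u} [Group G]
  (R : G → Cn n → Cn n → Prop) (H : Cn n → Matrix (Fin n) (Fin n) ℂ), KEt T R H →
  ∃ q : ℝ, 0 ≤ q ∧ ∀ Q : Cn n → Matrix (Fin n) (Fin n) ℂ, KEt T R Q → ∀ x ∈ T,
    KKt H Q x ≤ q * (Matrix.trace (H x * (Q x)⁻¹)).re ^ 2

/-- KLG. The logarithm of `tr (H Q⁻¹)` for a fixed metric `H`. USES: CL, CLG, AAPS, CHN, TRI.
PROOF. As `GLG` (`Helper46/GS/GLG.lean`), keeping `- KKt H Q ≥ - q t²`, `t := tr (H K) > 0`: `trL Q (log t) ≥ (- t - q t² + AAt)/t - AAt/t = -1 - q t`. -/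
def S_KLG : Prop := ∀ {n : ℕ}, 0 < n → ∀ (T : Set (Cn n)) {G : Type u} [Group G]
  (R : G → Cn n → Cn n → Prop) (H Q η : Cn n → Matrix (Fin n) (Fin n) ℂ) (q : ℝ), KEt T R H →
  KEt T R Q → (∀ x ∈ T, (η x).PosSemidef) → (∀ x ∈ T, rho Q x = Q x - η x) →
  (∀ x ∈ T, KKt H Q x ≤ q * (Matrix.trace (H x * (Q x)⁻¹)).re ^ 2) →
  InvF T R (fun x => (Matrix.trace (H x * (Q x)⁻¹)).re) ∧ ∀ x ∈ T,
    0 < (Matrix.trace (H x * (Q x)⁻¹)).re ∧ -1 - q * (Matrix.trace (H x * (Q x)⁻¹)).re ≤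
      (trL Q (fun y => Real.log (Matrix.trace (H y * (Q y)⁻¹)).re) x).re

/-- HPC. Constants. USES: RHB, RHOI, RCAL, LMF.
PROOF. `Z := rho H + LM ψ + g` is an invariant Hermitian metric (`RHOI`: `rho H`, `LM ψ` are smooth, Hermitian, invariant; `HBD.inv`, smoothness of `g` by `RCAL`). `RHB` for `Z` and `Y = H`: `K Z ≥ H`, `c := 1/K`.
`RHB` for `H` and `Y = g`, `rho H`, `rho H + LM ψ`. -/
def S_HPC : Prop := ∀ {n m : ℕ} (T : Set (Cn n)) {G : Type u} [Group G]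
  (R : G → Cn n → Cn n → Prop) (H : Cn n → Matrix (Fin n) (Fin n) ℂ)
  (σ : Cn n → Matrix (Fin n) (Fin m) ℂ) (h : Cn n → Matrix (Fin m) (Fin m) ℂ)
  (ψ : Cn n → ℝ), HBD T R H σ h ψ → ∃ c a : ℝ, 0 < c ∧ 1 ≤ a ∧ ∀ x ∈ T,
  (rho H x + LM ψ x + gS σ h x - (c : ℂ) • H x).PosSemidef ∧
  ((a : ℂ) • H x - gS σ h x).PosSemidef ∧
  ((a : ℂ) • H x - (rho H x + LM ψ x)).PosSemidef ∧
  ((a : ℂ) • H x + (rho H x + LM ψ x)).PosSemidef ∧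
  ((a : ℂ) • H x - rho H x).PosSemidef ∧ ((a : ℂ) • H x + rho H x).PosSemidef

/-- APR. The a priori bound: a bound of `tr (g Q⁻¹)` gives a lower bound of `Q`. USES: HPC, KUB, KLG, MAXF, TRC,
RHOI, KETP, LMF, WIRT.
PROOF. `n = 0` is trivial (`Λ = 1`). `c`, `a` from `HPC`, `q` from `KUB`, `w := ld Q - ld H - ψ` (`InvF`, `RHOI`), `ρ := rho H + LM ψ`, `LM w = rho Q - rho H - LM ψ = Q - X - ρ`. (1) `MAXF` for `w`: at a maximum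
`Q ≤ X + ρ ≤ (b + a) H`, so `det Q ≤ (b + a)^n det H` (`TRC`) and `w ≤ n log (a + b) - min ψ` on `T` (we may take `b ≥ 0`). (2) `MAXF` for `- w`: at a minimum `Q ≥ X + ρ ≥ ρ`, `g ≤ tr (g K) Q ≤ B Q` (we may take
`B ≥ 0`), so `(1 + B) Q ≥ ρ + g ≥ c H`, `w ≥ n log (c/(1 + B)) - max ψ` on `T`. So `|w| ≤ C₂`, `C₂` independent of `X`, `Q`. (3) `t := tr (H K)`, `A := (q + 1)/c`, `θ := log t - A w` (`InvF`). `trL Q w = tr (K LM w) = n - tr (K (X + ρ)) ≤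
n - tr (K ρ) = n - tr (K (ρ + g)) + tr (K g) ≤ n - c t + B`. `KLG`: `trL Q θ ≥ -1 - q t - A (n + B) + A c t = t - 1 - A (n + B)`. At a maximum of `θ` (`MAXF`, `trL Q θ ≤ 0`): `t ≤ C₃ := 1 + A (n + B)`. So `log t ≤
log C₃ + 2 A C₂` on `T`, and `H ≤ t Q` (`H ≤ tr (H K) Q`). `Λ := max 1 (C₃ exp (2 A C₂))`. -/
def S_APR : Prop := ∀ {n m : ℕ} (T : Set (Cn n)) {G : Type u} [Group G]
  (R : G → Cn n → Cn n → Prop) (H : Cn n → Matrix (Fin n) (Fin n) ℂ)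
  (σ : Cn n → Matrix (Fin n) (Fin m) ℂ) (h : Cn n → Matrix (Fin m) (Fin m) ℂ)
  (ψ : Cn n → ℝ), HBD T R H σ h ψ → ∀ b B : ℝ, ∃ Λ : ℝ, 1 ≤ Λ ∧
  ∀ X Q : Cn n → Matrix (Fin n) (Fin n) ℂ,
  (∀ x ∈ T, (X x).PosSemidef ∧ ((b : ℂ) • H x - X x).PosSemidef) → KEt T R Q →
  (∀ x ∈ T, rho Q x = Q x - X x) → (∀ x ∈ T, tS Q σ h x ≤ B) →
  ∀ x ∈ T, ((Λ : ℂ) • Q x - H x).PosSemidef

/-! ## 3. Existence and the minimising sequences -/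

/-- HMON. The sharp bound. USES: SCL, MAXF, SLG (invariance of `tS`), `cs_tr` of `Helper57/RBC/Exist.lean`.
PROOF. As `rmon` (`Helper57/RBC/Seq.lean`): at a maximum of `t = tS Q σ h`: `0 ≥ - t + ε tr (H' K g K)` (`SCL`, `η = ε H'`, `KS, AS ≥ 0`) and `t² ≤ tr (H' K g K) tr (g H'⁻¹)` (`cs_tr`, `g` only semidefinite), so
`ε t² ≤ s t`. -/
def S_HMON : Prop := ∀ {n m : ℕ} (T : Set (Cn n)) {G : Type u} [Group G]
  (R : G → Cn n → Cn n → Prop) (H' : Cn n → Matrix (Fin n) (Fin n) ℂ)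
  (σ : Cn n → Matrix (Fin n) (Fin m) ℂ) (h : Cn n → Matrix (Fin m) (Fin m) ℂ), KEt T R H' →
  SD T σ h → InvH R (gS σ h) → ∀ s : ℝ, SupB T (gS σ h) H' s → ∀ (ε : ℝ)
  (Q : Cn n → Matrix (Fin n) (Fin n) ℂ), 0 < ε → TKE T R H' ε Q → ∀ x ∈ T,
  ε * tS Q σ h x ≤ s

/-- HEX. Existence of the twisted Kähler–Einstein metrics for every invariant background metric `H'`. USES:
`S_AYG`, APR, HMON, MAXF, TRI, CMP, RHB, RHOI, KETP.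
PROOF. As `REX`/`GEX`. `s₂ := max tr (g H'⁻¹) ≥ 0` (`TRI`, `MAXF`), `H' ≤ b' H` and `H ≤ b' H'` (`CMP`). (*) If `X₀` is a `KEt` metric and `Q'` a `KEt` metric, `AYG` with `f = 0` gives `Q'' = X₀ + LM u` with `rho Q'' = Q'' - X₀ + rho Q'`.
(1) `RHB` for `rho H'`: for `s₁ ≥ ε` large `s₁ H' + rho H' ≥ H'`; (*) with `X₀ = s₁ H' + rho H'`, `Q' = H'`: `TKE T R H' s₁ Q''`. (2) Let `ε ≤ s ≤ s₁`, `TKE T R H' s Q`. `HMON`: `tS Q σ h ≤ s₂/s ≤ s₂/ε =: B`. `APR` with `X = s H'`,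
`b = s₁ b'`: `H ≤ Λ Q`, so `H' ≤ b' Λ Q`. For `s - 1/(2 b' Λ) ≤ s' ≤ s`: `X₀ := Q - (s - s') H' ≥ Q/2` is a `KEt` metric, (*) with `Q' = Q`: `TKE T R H' s' Q''`. (3) Finitely many steps of length `1/(2 b' Λ)` lead
from `s₁` to `ε`. -/
def S_HEX : Prop := ∀ {n m : ℕ} (T : Set (Cn n)) {G : Type u} [Group G]
  (R : G → Cn n → Cn n → Prop) (H : Cn n → Matrix (Fin n) (Fin n) ℂ)
  (σ : Cn n → Matrix (Fin n) (Fin m) ℂ) (h : Cn n → Matrix (Fin m) (Fin m) ℂ)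
  (ψ : Cn n → ℝ), HBD T R H σ h ψ → ∀ H' : Cn n → Matrix (Fin n) (Fin n) ℂ, KEt T R H' →
  ∀ ε : ℝ, 0 < ε → ∃ Q, TKE T R H' ε Q

/-- HSEQ. The minimising sequences. USES: HEX, HMON, RFAM, MAXF, TRI, CMP (see `rseq` in `Helper57/RBC/Seq.lean`).
PROOF. Word for word `rseq` with `h` replaced by `g = gS σ h` (only `g ≥ 0`, smooth and invariant is used) and `REX`, `RMON` by `HEX`, `HMON`. -/
def S_HSEQ : Prop := ∀ {n m : ℕ} (T : Set (Cn n)) {G : Type u} [Group G]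
  (R : G → Cn n → Cn n → Prop) (H : Cn n → Matrix (Fin n) (Fin n) ℂ)
  (σ : Cn n → Matrix (Fin n) (Fin m) ℂ) (h : Cn n → Matrix (Fin m) (Fin m) ℂ)
  (ψ : Cn n → ℝ), HBD T R H σ h ψ →
  ∃ (s : ℝ) (S N : ℕ → ℝ) (φ : ℕ → Cn n → ℝ) (H' : ℕ → Cn n → Matrix (Fin n) (Fin n) ℂ)
    (ε : ℕ → ℝ) (Q : ℕ → Cn n → Matrix (Fin n) (Fin n) ℂ),
    SeqR T R H (gS σ h) s S N φ H' ε Q

/-- HVD. The function `v = S - ε tr (g Q⁻¹)`. USES: SCL, SLG, HMON, TRI, KETP, DETI, PUE; see `Helper57/RBC/Vfun.lean`.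
PROOF. `t := tS Q σ h`, `m := ε t`, `0 ≤ m ≤ S` (`HMON`). `SCL` (`η = ε H'`): `trL Q m = - m + ε² tr (H' K g K) + ε (KS + AS)`, `ε² tr (H' K g K) ≥ m²/S` (`cs_tr`; if `S = 0` then `m = 0` and the term is `≥ 0`), so `trL Q v ≤
m - m²/S ≤ v`. The error term `f := ε (KS + AS) = trL Q m + m - ε² tr (H' K g K)` is invariant (`KETP`, `IFN`; `tr (H' K g K)` is invariant because `H'`, `Q`, `g` are) and continuous (`SCL`).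
`TRI` (2): the average of `f` is that of `m - ε² tr (H' K g K) ≤ v`. -/
def S_HVD : Prop := ∀ {n m : ℕ} (T : Set (Cn n)) {G : Type u} [Group G]
  (R : G → Cn n → Cn n → Prop) (H' : Cn n → Matrix (Fin n) (Fin n) ℂ)
  (σ : Cn n → Matrix (Fin n) (Fin m) ℂ) (h : Cn n → Matrix (Fin m) (Fin m) ℂ), KEt T R H' →
  SD T σ h → InvH R (gS σ h) → ∀ κ, IsPUE T R κ → ∀ (S ε : ℝ)
  (Q : Cn n → Matrix (Fin n) (Fin n) ℂ), 0 < ε → SupB T (gS σ h) H' S → TKE T R H' ε Q →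
  InvF T R (fun x => S - ε * tS Q σ h x) ∧ (∀ x ∈ T, 0 ≤ S - ε * tS Q σ h x) ∧
  (∀ x ∈ T, (trL Q (fun y => S - ε * tS Q σ h y) x).re ≤ S - ε * tS Q σ h x) ∧
  ContinuousOn (fun x => ε * (KS Q σ h x + AS Q σ h x)) T ∧
  (∀ x ∈ T, 0 ≤ ε * (KS Q σ h x + AS Q σ h x)) ∧
  (∀ γ x y, R γ x y → ε * (KS Q σ h y + AS Q σ h y) = ε * (KS Q σ h x + AS Q σ h x)) ∧
  avE T κ Q (fun x => ε * (KS Q σ h x + AS Q σ h x)) ≤
    avE T κ Q (fun x => S - ε * tS Q σ h x)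

/-- HVC. `E_j[v_j] → 0`. USES: RWT, RLG (`Helper57/RBC/Goals2.lean`), RVZ (`Helper10/RBC/Goals.lean`), HVD.
PROOF. As `RVC` (`Helper57/RBC`), `h` replaced by `gS σ h`: `v_j = S_j - ε_j tS Q_j σ h` is `≥ 0`, `≤ S_j ≤ s + 1`, `trL v_j ≤ v_j`; `inf v_j ≤ S_j - s ≤ 1/(j+1)` (`SeqR.m_ge`); `RWT` for `1/(v_j + δ_j)`, `RLG`, `RVZ`. -/
def S_HVC : Prop := ∀ {n m : ℕ}, 0 < n → ∀ (T : Set (Cn n)) {G : Type u} [Group G]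
  (R : G → Cn n → Cn n → Prop) (H : Cn n → Matrix (Fin n) (Fin n) ℂ)
  (σ : Cn n → Matrix (Fin n) (Fin m) ℂ) (h : Cn n → Matrix (Fin m) (Fin m) ℂ)
  (ψ : Cn n → ℝ), HBD T R H σ h ψ → ∀ κ, IsPUE T R κ →
  ∀ (s : ℝ) (S N : ℕ → ℝ) (φ : ℕ → Cn n → ℝ) (H' : ℕ → Cn n → Matrix (Fin n) (Fin n) ℂ)
    (ε : ℕ → ℝ) (Q : ℕ → Cn n → Matrix (Fin n) (Fin n) ℂ),
    SeqR T R H (gS σ h) s S N φ H' ε Q →
  Tendsto (fun j => avE T κ (Q j) fun x => S j - ε j * tS (Q j) σ h x) atTop (𝓝 0)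

end Pool.Agent.Helper29.HB
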