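import Pool.Agent.Helper29.HB.GoalsB

/-!
# HB, goals C: the volume of `rho H + t β`

`F(s, t) = ∫ κ det (rho H + s H + t β)`. Result (`S_VOL`): `F(0, t) = V t^k` with `V > 0`, where `k` is the rank of `P`.
-/

open Complex Metric Set Filter Topology MeasureTheory
open scoped ContDiff ComplexConjugate ComplexOrder Manifold Matrix

namespace Pool.Agent.Helper29.HB

open Pool.Agent.Helper95.Lin Pool.Agent.Helper16.Abund Pool.Agent.Helper92.Orb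
  Pool.Agent.Helper10.SP Pool.Agent.Helper95.RK Pool.Agent.Helper57.HS
  Pool.Agent.Helper15.HS Pool.Agent.Helper15.GS
open Pool.Agent.Helper57.RBC (Fam SupB SeqR TkeS)
open Pool.Agent.Helper10.RBC (dn)
open Pool.Agent.Helper95.HS (vol DensLe)

universe u v

/-- The mixed volumes. -/
noncomputable def VolB {n : ℕ} (T : Set (Cn n)) (κ : Cn n → ℝ)
    (H β : Cn n → Matrix (Fin n) (Fin n) ℂ) (s t : ℝ) : ℝ :=
  ∫ x in T, κ x * (rho H x + (s : ℂ) • H x + (t : ℂ) • β x).det.re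

/-- VPL. Mixed volumes are polynomials in two variables.
PROOF. As `int_poly` (`Helper70/HS/VOLP.lean`): pointwise `det (A + s B + t C)` is a polynomial in `s`, `t` of degree `≤ n` in each variable, so it is equal to its two-variable Lagrange interpolation at the points
`(i, j)`, `0 ≤ i, j ≤ n`; integrate. (`det_re_poly` in one variable twice: for fixed `t` the values at `s = 0, …, n`, each a polynomial in `t`.) -/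
def S_VPL : Prop := ∀ {n : ℕ} (T : Set (Cn n)) (κ : Cn n → ℝ), IsOpen T → TestF T κ →
  ∀ A B C : Cn n → Matrix (Fin n) (Fin n) ℂ, (∀ i j, ContDiffOn ℝ ∞ (fun x => A x i j) T) →
  (∀ i j, ContDiffOn ℝ ∞ (fun x => B x i j) T) → (∀ i j, ContDiffOn ℝ ∞ (fun x => C x i j) T) →
  ∃ f : ℕ → ℕ → ℝ, ∀ s t : ℝ, ∫ x in T, κ x * (A x + (s : ℂ) • B x + (t : ℂ) • C x).det.re =
    ∑ a ∈ Finset.range (n + 1), ∑ b ∈ Finset.range (n + 1), f a b * s ^ a * t ^ b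

/-- PLK. A polynomial which grows at most like `(1 + t)^k` has degree `≤ k` (pure).
PROOF. For fixed `s > 0` the polynomial `t ↦ ∑ b (∑ a f a b s^a) t^b` is `O(t^k)` for `t → ∞`, so its coefficients with `b > k` vanish: the polynomial `∑ a f a b s^a` vanishes for all `s > 0`, so `f a b = 0` for `b > k`. -/
def S_PLK : Prop := ∀ (n k : ℕ) (f : ℕ → ℕ → ℝ), (∀ s : ℝ, 0 < s → ∃ C : ℝ, ∀ t : ℝ, 0 ≤ t →
    |∑ a ∈ Finset.range (n + 1), ∑ b ∈ Finset.range (n + 1), f a b * s ^ a * t ^ b| ≤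
      C * (1 + t) ^ k) →
  ∃ f' : ℕ → ℕ → ℝ, ∀ s t : ℝ,
    ∑ a ∈ Finset.range (n + 1), ∑ b ∈ Finset.range (n + 1), f a b * s ^ a * t ^ b =
    ∑ a ∈ Finset.range (n + 1), ∑ b ∈ Finset.range (k + 1), f' a b * s ^ a * t ^ b

/-- RDE. Pointwise: `det (Q + t β)` for `β = σ P h σᴴ`, `tr P = k`. USES: RDL (`Helper10/RBC/Goals.lean`).
PROOF. `X := P h σᴴ K σ` (`m × m`), `det (1 + t β K) = det (1 + t X)` (`Matrix.det_one_add_mul_comm`, `β K = σ (P h σᴴ K)`). `D := t X P h = t (σ P h)ᴴ K (σ P h) ≥ 0` (`(P h)ᴴ = P h = P h Pᴴ`), `P D = D`; `det (1 + t X) = det (1 + t X P)`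
(`X = P X`, again the commutation of determinants) `= det (h + D)/det h`. `tr (D h⁻¹) = t tr (X P) = t tr (β K)`, so `D ≤ t r h` if `tr (β K) ≤ r`; `RDL` with `M = h`, `lam = 1 + t r`. (2): `det (1 + t P Z) = det (1 + t Z)` if `P Z = Z`, and `X = P (SE 1)`. -/
def S_RDE : Prop := ∀ {n m : ℕ} (k : ℕ) (Q : Matrix (Fin n) (Fin n) ℂ)
  (σ : Matrix (Fin n) (Fin m) ℂ) (h P : Matrix (Fin m) (Fin m) ℂ), Q.PosDef → h.PosDef →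
  P * P = P → P * h = h * Pᴴ → Matrix.trace P = k →
  (σ * (P * h) * σᴴ).PosSemidef ∧ (h - P * h).PosSemidef ∧
  (∀ t : ℝ, (Q + (t : ℂ) • (σ * (P * h) * σᴴ)).det =
    Q.det * (1 + (t : ℂ) • (P * (h * σᴴ * Q⁻¹ * σ))).det) ∧
  ∀ r : ℝ, 0 ≤ r → (Matrix.trace (σ * (P * h) * σᴴ * Q⁻¹)).re ≤ r → ∀ t : ℝ, 0 ≤ t →
    (Q + (t : ℂ) • (σ * (P * h) * σᴴ)).det.re ≤ (1 + t * r) ^ k * Q.det.re

/-- VDG. The mixed volumes are polynomials of degree `≤ k` in `t`. USES: VPL, PLK, RDE, HEX, MOMG, RHOI, RHB.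
PROOF. `f` from `VPL`. For `s > 0`: `Q` with `TKE T R H s Q` (`HEX`), `Q = rho H + s H + LM u`, `VolB s t = ∫ κ det (Q + t β)` (`MOMG`), `0 ≤ det (Q + t β) ≤ (1 + t r)^k det Q` (`RDE`, `r := sup tr (β Q⁻¹)`, `MAXF`/`RHB`). `PLK`. -/
def S_VDG : Prop := ∀ {n m : ℕ} (T : Set (Cn n)) {G : Type u} [Group G]
  (R : G → Cn n → Cn n → Prop) (H : Cn n → Matrix (Fin n) (Fin n) ℂ)
  (σ : Cn n → Matrix (Fin n) (Fin m) ℂ) (h : Cn n → Matrix (Fin m) (Fin m) ℂ)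
  (ψ : Cn n → ℝ), HBD T R H σ h ψ → ∀ κ, IsPUE T R κ → ∀ (k : ℕ)
  (P : Cn n → Matrix (Fin m) (Fin m) ℂ), PE k T R σ h P →
  ∃ f : ℕ → ℕ → ℝ, ∀ s t : ℝ, VolB T κ H (bS σ h P) s t =
    ∑ a ∈ Finset.range (n + 1), ∑ b ∈ Finset.range (k + 1), f a b * s ^ a * t ^ b

/-- HDL. The transversal part is small: `sup ε_j tr ((g - β) Q_j⁻¹) → 0`. USES: SDP, SLG, RWT, WAV, HPC, SCL.
PROOF. `σ' := σ (1 - P)` (`SDP`), `t'_j := tS Q_j σ' h = tr ((g - β) K)`. `ε_j t'_j = tr ((1 - P) S_j)` (cyclicity), `F x X := (tr ((1 - P x) X)).re`, `F x (Si x) = 0` (`P Si = Si`), so `E_j[ε_j t'_j] → 0` (`WAV`, `ε_j t'_j ≥ 0`). `SLG` for `σ'`, `c := η/ε_j`, `η > 0`: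
the function `ε_j t'_j + η` satisfies `-1 ≤ trL log`, so by `RWT` it is `≤ K (E_j[ε_j t'_j] + η)`. Hence `sup_T ε_j t'_j → 0`; `δ_j := sup_T ε_j t'_j` (or `1/(l+1)` for `J_l ≤ j < J_{l+1}`). -/
def S_HDL : Prop := ∀ {n m : ℕ}, 0 < n → ∀ (T : Set (Cn n)) {G : Type u} [Group G]
  (R : G → Cn n → Cn n → Prop) (H : Cn n → Matrix (Fin n) (Fin n) ℂ)
  (σ : Cn n → Matrix (Fin n) (Fin m) ℂ) (h : Cn n → Matrix (Fin m) (Fin m) ℂ)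
  (ψ : Cn n → ℝ), HBD T R H σ h ψ → ∀ κ, IsPUE T R κ →
  ∀ (Si : Cn n → Matrix (Fin m) (Fin m) ℂ) (s : ℝ) (S N : ℕ → ℝ) (φ : ℕ → Cn n → ℝ)
    (H' : ℕ → Cn n → Matrix (Fin n) (Fin n) ℂ) (ε : ℕ → ℝ)
    (Q : ℕ → Cn n → Matrix (Fin n) (Fin n) ℂ), LimE T R κ H σ h Si s S N φ H' ε Q →
  ∀ (k : ℕ) (P : Cn n → Matrix (Fin m) (Fin m) ℂ), PE k T R σ h P →
  (∀ x ∈ T, P x * Si x = Si x) →
  ∃ δ : ℕ → ℝ, (∀ j, 0 ≤ δ j) ∧ Tendsto δ atTop (𝓝 0) ∧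
    ∀ j, ∀ x ∈ T, ε j * (Matrix.trace ((gS σ h x - bS σ h P x) * (Q j x)⁻¹)).re ≤ δ j

/-- VF1. The ratios of the mixed volumes. USES: MOMG, RHOI, RFAM, RLV, RDE, WAV, DETI, NULL0.
PROOF. `a_j := 1 + ε_j N_j`, `s_j = ε_j/a_j`. `Q_j + τ ε_j β = a_j rho H + ε_j H + τ ε_j β + LM(…)` (`RLV` (1)), so `∫ κ det (Q_j + τ ε_j β) = a_j^n VolB(s_j, τ s_j)`. `det (Q_j + τ ε_j β) = det Q_j det (1 + τ P S_j)` (`RDE`; `ε_j h σᴴ K σ = S_j`), so the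
quotient is `E_j[F x (S_j x)]`, `F x X := (det (1 + τ P x X)).re`, `F x (Si x) = ∏ (1 + τ a_i)` (`P Si = Si`): `WAV` for all `η`. -/
def S_VF1 : Prop := ∀ {n m : ℕ} (T : Set (Cn n)) {G : Type u} [Group G]
  (R : G → Cn n → Cn n → Prop) (H : Cn n → Matrix (Fin n) (Fin n) ℂ)
  (σ : Cn n → Matrix (Fin n) (Fin m) ℂ) (h : Cn n → Matrix (Fin m) (Fin m) ℂ)
  (ψ : Cn n → ℝ), HBD T R H σ h ψ → ∀ κ, IsPUE T R κ →
  ∀ (Si : Cn n → Matrix (Fin m) (Fin m) ℂ) (s : ℝ) (S N : ℕ → ℝ) (φ : ℕ → Cn n → ℝ)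
    (H' : ℕ → Cn n → Matrix (Fin n) (Fin n) ℂ) (ε : ℕ → ℝ)
    (Q : ℕ → Cn n → Matrix (Fin n) (Fin n) ℂ), LimE T R κ H σ h Si s S N φ H' ε Q →
  ∀ (k : ℕ) (P : Cn n → Matrix (Fin m) (Fin m) ℂ) (a : Fin k → ℝ), PE k T R σ h P →
  (∀ x ∈ T, P x * Si x = Si x) →
  (∀ x ∈ T, ∀ τ : ℝ, (1 + (τ : ℂ) • Si x).det = ((∏ i, (1 + τ * a i) : ℝ) : ℂ)) →
  (∀ j, 0 < VolB T κ H (bS σ h P) (ε j / (1 + ε j * N j)) 0) ∧
  ∀ τ : ℝ, 0 ≤ τ → Tendsto (fun j =>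
    VolB T κ H (bS σ h P) (ε j / (1 + ε j * N j)) (τ * (ε j / (1 + ε j * N j))) /
      VolB T κ H (bS σ h P) (ε j / (1 + ε j * N j)) 0) atTop (𝓝 (∏ i, (1 + τ * a i)))

/-- VF2. The inequality between mixed volumes. USES: MOMG, RHOI, RLV, RFAM, TRC, SDP, SCL.
PROOF. `a_j := 1 + ε_j N_j`, `s_j = ε_j/a_j`, `ρ := rho H + LM ψ`, `ρ + g ≥ c H`. `g - β ≤ tr ((g - β) K) Q_j ≤ (δ_j/ε_j) Q_j` (`g - β ≥ 0` by `SDP`). So `0 < Q_j + τ ε_j β + ε_j c H ≤ Q_j + τ ε_j β + ε_j (ρ + g) ≤ (1 + δ_j) Q_j + (τ + 1) ε_j β + ε_j ρ`, the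
determinants are monotone (`TRC`), multiply by `κ ≥ 0` and integrate. All four fields are closed; by `MOMG` (`Q_j = a_j rho H + ε_j H + LM (…)`, `ρ = rho H + LM ψ`) the integrals are `∫ κ det (a_j rho H + (1 + c) ε_j H + τ ε_j β)` and
`∫ κ det (((1 + δ_j) a_j + ε_j) rho H + (1 + δ_j) ε_j H + (τ + 1) ε_j β)`. `(1 + δ_j) a_j + ε_j = a_j (1 + δ_j + s_j)`; take out the factors `a_j^n` and `(a_j (1 + δ_j + s_j))^n`. -/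
def S_VF2 : Prop := ∀ {n m : ℕ} (T : Set (Cn n)) {G : Type u} [Group G]
  (R : G → Cn n → Cn n → Prop) (H : Cn n → Matrix (Fin n) (Fin n) ℂ)
  (σ : Cn n → Matrix (Fin n) (Fin m) ℂ) (h : Cn n → Matrix (Fin m) (Fin m) ℂ)
  (ψ : Cn n → ℝ), HBD T R H σ h ψ → ∀ κ, IsPUE T R κ → ∀ (k : ℕ)
  (P : Cn n → Matrix (Fin m) (Fin m) ℂ), PE k T R σ h P → ∀ (c δ ε N : ℝ) (φ : Cn n → ℝ)
  (H' Q : Cn n → Matrix (Fin n) (Fin n) ℂ), 0 < c → 0 ≤ δ → 0 < ε →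
  (∀ x ∈ T, (rho H x + LM ψ x + gS σ h x - (c : ℂ) • H x).PosSemidef) →
  Fam T R H N φ H' → TKE T R H' ε Q →
  (∀ x ∈ T, ε * (Matrix.trace ((gS σ h x - bS σ h P x) * (Q x)⁻¹)).re ≤ δ) →
  ∀ s τ : ℝ, s = ε / (1 + ε * N) → 0 ≤ τ →
  VolB T κ H (bS σ h P) ((1 + c) * s) (τ * s) ≤ (1 + δ + s) ^ n *
    VolB T κ H (bS σ h P) ((1 + δ) * s / (1 + δ + s)) ((τ + 1) * s / (1 + δ + s))

/-- VCN. The conclusion (pure real analysis).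
PROOF. `F s t := ∑∑ f a b s^a t^b`, not identically `0`. Let `d` be the smallest `a + b` with `f a b ≠ 0` (`b ≤ k`), `F_d(x, y) := ∑_{a + b = d} f a b x^a y^b`. If `x_j → x`, `y_j → y` then `F(s_j x_j, s_j y_j)/s_j^d → F_d(x, y)` (`s_j → 0`, `s_j > 0`). (1) By the ratios
`F_d(1, τ) = χ(τ) F_d(1, 0)` for all `τ ≥ 0`, `χ(τ) := ∏ (1 + τ a_i)` (`F(s_j, τ s_j) = (ratio) F(s_j, 0)`). `F_d(1, ·)` is a nonzero polynomial, so `v := F_d(1, 0) ≠ 0`, and `v ≥ 0` as a limit: `v > 0`. `F_d(1, τ)` has degree `≤ d` in `τ` and `χ` has degree exactly `k` (`a_i > 0`): `k ≤ d`.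
(2) The inequality divided by `s_j^d`, `j → ∞`: `F_d(1 + c, τ) ≤ F_d(1, τ + 1)`. Homogeneity: `F_d(1 + c, τ) = (1 + c)^d v χ(τ/(1 + c))`. So `(1 + c)^d ∏ (1 + τ a_i/(1 + c)) ≤ ∏ (1 + (τ + 1) a_i)`; divide by `τ^k`, `τ → ∞`: `(1 + c)^(d - k) ∏ a_i ≤ ∏ a_i`: `d ≤ k`.
(3) So `d = k`, `f 0 b = 0` for `b < k`, `f 0 k = v ∏ a_i =: V > 0` (coefficient of `τ^k` in `F_k(1, τ) = v χ(τ)`), and `F 0 t = f 0 k t^k`. -/
def S_VCN : Prop := ∀ (n k : ℕ) (f : ℕ → ℕ → ℝ) (a : Fin k → ℝ) (c : ℝ) (s δ : ℕ → ℝ)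
  (F : ℝ → ℝ → ℝ), (∀ x y, F x y =
    ∑ a ∈ Finset.range (n + 1), ∑ b ∈ Finset.range (k + 1), f a b * x ^ a * y ^ b) →
  0 < c → (∀ i, 0 < a i) → (∀ j, 0 < s j) → Tendsto s atTop (𝓝 0) → (∀ j, 0 ≤ δ j) →
  Tendsto δ atTop (𝓝 0) → (∀ j, 0 < F (s j) 0) →
  (∀ τ : ℝ, 0 ≤ τ → Tendsto (fun j => F (s j) (τ * s j) / F (s j) 0) atTop
    (𝓝 (∏ i, (1 + τ * a i)))) →
  (∀ j, ∀ τ : ℝ, 0 ≤ τ → F ((1 + c) * s j) (τ * s j) ≤ (1 + δ j + s j) ^ n *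
    F ((1 + δ j) * s j / (1 + δ j + s j)) ((τ + 1) * s j / (1 + δ j + s j))) →
  ∃ V : ℝ, 0 < V ∧ ∀ t : ℝ, F 0 t = V * t ^ k

/-- VOL (assembly). USES: HPE, VDG, HDL, VF1, VF2, VCN, HPC. -/
def S_VOL : Prop := ∀ {n m : ℕ}, 0 < n → ∀ (T : Set (Cn n)) {G : Type u} [Group G]
  (R : G → Cn n → Cn n → Prop) (H : Cn n → Matrix (Fin n) (Fin n) ℂ)
  (σ : Cn n → Matrix (Fin n) (Fin m) ℂ) (h : Cn n → Matrix (Fin m) (Fin m) ℂ)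
  (ψ : Cn n → ℝ), HBD T R H σ h ψ → ∀ κ, IsPUE T R κ →
  ∃ (k : ℕ) (P : Cn n → Matrix (Fin m) (Fin m) ℂ), PE k T R σ h P ∧
    ∃ V : ℝ, 0 < V ∧ ∀ t : ℝ, VolB T κ H (bS σ h P) 0 t = V * t ^ k

end Pool.Agent.Helper29.HB
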