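import Pool.Agent.Helper29.HB.GoalsC

/-!
# HB, goals D: the canonical metric `rho Q = Q - β` and its rigidity

`P` is as in `PE`, `β = bS σ h P`, and `F(0, t) = V t^k`, `V > 0` (`S_VOL`). The metrics `Q` satisfy `rho Q = Q - β - δ H` (`BKE`).
-/

open Complex Metric Set Filter Topology MeasureTheory
open scoped ContDiff ComplexConjugate ComplexOrder Manifold Matrix

namespace Pool.Agent.Helper29.HB

open Pool.Agent.Helper95.Lin Pool.Agent.Helper16.Abund Pool.Agent.Helper92.Orb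
  Pool.Agent.Helper10.SP Pool.Agent.Helper95.RK Pool.Agent.Helper57.HS
  Pool.Agent.Helper15.HS Pool.Agent.Helper15.GS
open Pool.Agent.Helper57.RBC (Fam SupB SeqR TkeS)
open Pool.Agent.Helper10.RBC (dn)
open Pool.Agent.Helper95.HS (vol DensLe)

universe u v

/-- `P` and the volume. -/
structure PV {n m : ℕ} (k : ℕ) (T : Set (Cn n)) {G : Type u} [Group G]
    (R : G → Cn n → Cn n → Prop) (H : Cn n → Matrix (Fin n) (Fin n) ℂ)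
    (σ : Cn n → Matrix (Fin n) (Fin m) ℂ) (h P : Cn n → Matrix (Fin m) (Fin m) ℂ)
    (κ : Cn n → ℝ) (V : ℝ) : Prop where
  pe : PE k T R σ h P
  pue : IsPUE T R κ
  pos : 0 < V
  vol : ∀ t : ℝ, VolB T κ H (bS σ h P) 0 t = V * t ^ k

/-- DVL. Volumes of the metrics. USES: MOMG, RHOI, KETP.
PROOF. `u := ld Q - ld H` is `InvF`, `LM u = rho Q - rho H` (`RHOI`), so `Q + t H + r β = (rho H + (δ + t) H + (1 + r) β) + LM u`: `MOMG`. -/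
def S_DVL : Prop := ∀ {n : ℕ} (T : Set (Cn n)) {G : Type u} [Group G]
  (R : G → Cn n → Cn n → Prop) (H β : Cn n → Matrix (Fin n) (Fin n) ℂ), KEt T R H →
  CHF β T → InvH R β → ∀ κ, IsPUE T R κ → ∀ (δ : ℝ) (Q : Cn n → Matrix (Fin n) (Fin n) ℂ),
  BKE T R H β δ Q → ∀ t r : ℝ,
    ∫ x in T, κ x * (Q x + (t : ℂ) • H x + (r : ℂ) • β x).det.re =
      VolB T κ H β (δ + t) (1 + r)

/-- DB1. Existence for `δ > 0`. USES: `S_AYG`, HEX, RHOI, KETP, RDE.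
PROOF. As `GB1`: `Q'` with `rho Q' = Q' - δ H` (`HEX`, `H' = H`), `X := Q' + β` is a `KEt` metric (`β ≥ 0` by `RDE`), `AYG`. -/
def S_DB1 : Prop := ∀ {n m : ℕ} (T : Set (Cn n)) {G : Type u} [Group G]
  (R : G → Cn n → Cn n → Prop) (H : Cn n → Matrix (Fin n) (Fin n) ℂ)
  (σ : Cn n → Matrix (Fin n) (Fin m) ℂ) (h : Cn n → Matrix (Fin m) (Fin m) ℂ)
  (ψ : Cn n → ℝ), HBD T R H σ h ψ → ∀ (k : ℕ) (P : Cn n → Matrix (Fin m) (Fin m) ℂ),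
  PE k T R σ h P → ∀ δ : ℝ, 0 < δ → ∃ Q, BKE T R H (bS σ h P) δ Q

/-- DAV. The average of the trace. USES: DVL, DB1, HPC, TRC, VPL, NULL0.
PROOF. `f(s) := VolB s 1` is a polynomial (`VPL`), `f(0) = V > 0`, `f(s) = vol Q > 0` for `s > 0` (`DB1`, `DVL`, `NULL0`): on `[0, 2]` `V0 ≤ f ≤ V1`, `V0 > 0`. `g ≤ a H` (`HPC`), `tS ≤ a tr (H Q⁻¹)`, `vol Q + ∫ κ det Q tr (H Q⁻¹) ≤ ∫ κ det (Q + H) = f(δ + 1) ≤ V1`
(`TRC`), `vol Q = f(δ) ≥ V0`. `C := a V1/V0`. -/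
def S_DAV : Prop := ∀ {n m : ℕ} (T : Set (Cn n)) {G : Type u} [Group G]
  (R : G → Cn n → Cn n → Prop) (H : Cn n → Matrix (Fin n) (Fin n) ℂ)
  (σ : Cn n → Matrix (Fin n) (Fin m) ℂ) (h : Cn n → Matrix (Fin m) (Fin m) ℂ)
  (ψ : Cn n → ℝ), HBD T R H σ h ψ → ∀ (k : ℕ) (P : Cn n → Matrix (Fin m) (Fin m) ℂ)
  (κ : Cn n → ℝ) (V : ℝ), PV k T R H σ h P κ V → ∃ C : ℝ, 0 ≤ C ∧
  ∀ (δ : ℝ) (Q : Cn n → Matrix (Fin n) (Fin n) ℂ), 0 < δ → δ ≤ 1 →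
    BKE T R H (bS σ h P) δ Q →
    ∫ x in T, κ x * (Q x).det.re * tS Q σ h x ≤ C * vol T κ Q

/-- DB3. For some `δ > 0` also `Q - δ H` is a metric. USES: SBG, DENS, SLG, DAV, DB1, APR, HPC, RHB, RHOI, KETP, NULL0, RDE.
PROOF. As `GB3`. `0 ≤ β ≤ b₁ H` (`RHB`, `RDE`). For `0 < δ ≤ 1`, `BKE` `Q`, `φ := ld Q - ld H`: `Q - LM φ = rho H + β + δ H ≤ a' H`, `a' H + LM φ ≥ 0` (`a'` independent of `δ`, `Q`): `DENS`, and `SBG` for `S := tS Q σ h + 1` (`SLG` with `η = β + δ H ≥ 0`, `c = 1`): `(tS + 1) vol Q ≤ C' ∫ κ det Q (tS + 1) ≤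
C' (C + 1) vol Q` (`DAV`), `vol Q > 0`: `tS ≤ B`. `APR` with `X = β + δ H`, `b = b₁ + 1`: `H ≤ Λ Q`, `Λ` independent of `δ`. `δ := min (1, 1/(2 Λ))`. -/
def S_DB3 : Prop := ∀ {n m : ℕ}, 0 < n → ∀ (T : Set (Cn n)) {G : Type u} [Group G]
  (R : G → Cn n → Cn n → Prop) (H : Cn n → Matrix (Fin n) (Fin n) ℂ)
  (σ : Cn n → Matrix (Fin n) (Fin m) ℂ) (h : Cn n → Matrix (Fin m) (Fin m) ℂ)
  (ψ : Cn n → ℝ), HBD T R H σ h ψ → ∀ (k : ℕ) (P : Cn n → Matrix (Fin m) (Fin m) ℂ)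
  (κ : Cn n → ℝ) (V : ℝ), PV k T R H σ h P κ V →
  ∃ (δ : ℝ) (Q : Cn n → Matrix (Fin n) (Fin n) ℂ), 0 < δ ∧ BKE T R H (bS σ h P) δ Q ∧
    ∀ x ∈ T, (Q x - (δ : ℂ) • H x).PosDef

/-- DB4. Existence for `δ = 0`. USES: `S_AYG`, RHOI, KETP.
PROOF. As `GB4`: `X := Q - δ H` is a `KEt` metric, `AYG` for `Q`, `X`, `f = 0`: `Q₀ := X + LM u`, `rho Q₀ = LM u + rho Q = Q₀ - β`. -/
def S_DB4 : Prop := ∀ {n : ℕ} (T : Set (Cn n)) {G : Type u} [Group G]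
  (R : G → Cn n → Cn n → Prop) (H β : Cn n → Matrix (Fin n) (Fin n) ℂ), KEt T R H →
  ∀ (δ : ℝ) (Q : Cn n → Matrix (Fin n) (Fin n) ℂ), BKE T R H β δ Q →
  (∀ x ∈ T, (Q x - (δ : ℂ) • H x).PosDef) → ∃ Q₀, BKE T R H β 0 Q₀

/-- DAL. Pointwise linear algebra. PROOF. `K = Q⁻¹`, `X := P h σᴴ K σ P` (`m × m`), `X = P X = X P`, `X h = (σ P h)ᴴ K (σ P h) ≥ 0` Hermitian (`h Pᴴ = P h`), `tr (β K) = tr X`, `tr (β K β K) = tr (X X)`. With `h = b bᴴ`, `X' := b⁻¹ X b`, `P' := b⁻¹ P b` are Hermitian, `tr ((X' - P')²) = tr X² - 2 tr X + k ≥ 0`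
(`X P = X`), `= 0` iff `X = P`. Then `β K β = σ P h σᴴ K σ P h σᴴ = σ X h σᴴ = β`. `E := β K` is a projector of trace `k`, `E Q = β`, `Q - β = (1 - E) Q = (1 - E) Q (1 - E)ᴴ ≥ 0`, and `hermi (Q - β) e e = 0` iff the row `e (1 - E) = 0`: the rows `e = e E`, a space of dimension `k`. (`hermi A e e = ∑ A i j e_i conj(e_j)`.) -/
def S_DAL : Prop := ∀ {n m : ℕ} (k : ℕ) (Q : Matrix (Fin n) (Fin n) ℂ)
  (σ : Matrix (Fin n) (Fin m) ℂ) (h P : Matrix (Fin m) (Fin m) ℂ), Q.PosDef → h.PosDef →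
  P * P = P → P * h = h * Pᴴ → Matrix.trace P = k →
  ∀ β : Matrix (Fin n) (Fin n) ℂ, β = σ * (P * h) * σᴴ →
  0 ≤ (Matrix.trace (β * Q⁻¹ * β * Q⁻¹)).re - 2 * (Matrix.trace (β * Q⁻¹)).re + k ∧
  ((Matrix.trace (β * Q⁻¹ * β * Q⁻¹)).re - 2 * (Matrix.trace (β * Q⁻¹)).re + k = 0 →
    β * Q⁻¹ * β = β ∧ (Q - β).PosSemidef ∧ ∃ W : Submodule ℂ (Cn n),
      Module.finrank ℂ W = k ∧ ∀ e : Cn n, hermi (Q - β) e e = 0 ↔ e ∈ W)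

/-- DB5. Rigidity. USES: DVL, SDP, SCL, DAL, TRC, TRI, NULL0, KETP, IFN.
PROOF. As `GB5`. `t := tS Q (σ P) h = tr (β K)` (`SDP`), `0 ≤ t ≤ B` on `tsupport κ`. (1) `∫ κ det (Q + r β) = VolB 0 (1 + r) = V (1 + r)^k = (1 + r)^k vol Q` (`DVL`, `PV.vol`), `TRC` for small `r > 0`: `∫ κ det Q t = k vol Q`. (2) `SCL` for `(σ P, h)`, `η = β`, `KS = 0`: `trL Q t = - t + tr (β K β K) + AS`, `AS ≥ 0`.
(3) `f := q + AS`, `q := tr (β K β K) - 2 t + k ≥ 0` (`DAL`): `f = trL Q t - t + k` is invariant and smooth, `∫ κ det Q f = 0` (`TRI` (2)): `f = 0` (`NULL0`). `AS = 0`: `K = zᴴ z`, `h = b bᴴ`: `∑_a ‖z Z_a b‖² = 0`, `z` invertible: all `nab Q (σ P) h k = 0`. -/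
def S_DB5 : Prop := ∀ {n m : ℕ} (T : Set (Cn n)) {G : Type u} [Group G]
  (R : G → Cn n → Cn n → Prop) (H : Cn n → Matrix (Fin n) (Fin n) ℂ)
  (σ : Cn n → Matrix (Fin n) (Fin m) ℂ) (h : Cn n → Matrix (Fin m) (Fin m) ℂ)
  (ψ : Cn n → ℝ), HBD T R H σ h ψ → ∀ (k : ℕ) (P : Cn n → Matrix (Fin m) (Fin m) ℂ)
  (κ : Cn n → ℝ) (V : ℝ), PV k T R H σ h P κ V →
  ∀ Q : Cn n → Matrix (Fin n) (Fin n) ℂ, BKE T R H (bS σ h P) 0 Q → ∀ x ∈ T,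
  (Matrix.trace (bS σ h P x * (Q x)⁻¹ * bS σ h P x * (Q x)⁻¹)).re -
    2 * (Matrix.trace (bS σ h P x * (Q x)⁻¹)).re + k = 0 ∧
  ∀ l, nab Q (fun y => σ y * P y) h l x = 0

/-- DNL. The curvature of `Q` vanishes in the directions of the kernel of `Q - β`. USES: RCAL, ECF, MCAL, CSY.
PROOF. As `RNUL`. `(Gam Q k) σ P = cdR k (σ P) + σ P GamE h k` on `T`. Apply `cdbR l`: `(cdbM l (Gam Q k)) σ P = cdR k (cdbR l (σ P)) + σ P cdbR l (GamE h k) = 0` (`σ P` is holomorphic; `P cdbR l (GamE h k) h = - P RE h k l = 0`). Multiply by `h σᴴ`: `(cdbM l (Gam Q k)) β = 0`.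
If `hermi (Q - β) e e = 0`, then `(Q - β) ē = 0` (`Q - β ≥ 0`), so `∑ j, crv Q i j k l ē_j = - ((cdbM l (Gam Q k)) Q ē) i = - ((cdbM l (Gam Q k)) β ē) i = 0`; the other index by the symmetries of the Kähler metric `Q` (`CSY`). -/
def S_DNL : Prop := ∀ {n m : ℕ} (T : Set (Cn n)) {G : Type u} [Group G]
  (R : G → Cn n → Cn n → Prop) (σ : Cn n → Matrix (Fin n) (Fin m) ℂ)
  (h : Cn n → Matrix (Fin m) (Fin m) ℂ), SD T σ h → ∀ (k : ℕ)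
  (P : Cn n → Matrix (Fin m) (Fin m) ℂ), PE k T R σ h P →
  ∀ Q : Cn n → Matrix (Fin n) (Fin n) ℂ, KEt T R Q →
  (∀ x ∈ T, (Q x - bS σ h P x).PosSemidef) →
  (∀ x ∈ T, ∀ l, nab Q (fun y => σ y * P y) h l x = 0) → ∀ x ∈ T, ∀ e : Cn n,
  hermi (Q x - bS σ h P x) e e = 0 → ∀ i j r, ∑ l, crv Q x i j r l * conj (e l) = 0

/-- HPOST (assembly). USES: PUE, VOL, DB3, DB4, DB5, DAL, DNL, LMF. A Kähler metric `Q` such that the canonical metric `det Q` is semipositive of constant corank `k`, and the curvature of `Q` vanishes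
in the directions of the kernel. (`k = n`: `Q` is flat.) -/
def S_HPOST : Prop := ∀ {n m : ℕ}, 0 < n → ∀ (T : Set (Cn n)) {G : Type u} [Group G]
  (R : G → Cn n → Cn n → Prop) (H : Cn n → Matrix (Fin n) (Fin n) ℂ)
  (σ : Cn n → Matrix (Fin n) (Fin m) ℂ) (h : Cn n → Matrix (Fin m) (Fin m) ℂ)
  (ψ : Cn n → ℝ), HBD T R H σ h ψ →
  ∃ (k : ℕ) (Q : Cn n → Matrix (Fin n) (Fin n) ℂ), k ≤ n ∧ KEt T R Q ∧ CorankK k (ld Q) T ∧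
    ∀ x ∈ T, ∀ e, lev (ld Q) x e = 0 → ∀ i j r, ∑ l, crv Q x i j r l * conj (e l) = 0

end Pool.Agent.Helper29.HB
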